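import Pool.Agent.W2helper25.LS.Main

/-!
# Groups of locally analytic homeomorphisms of open compact subsets of the p-adic numbers
-/

set_option autoImplicit false
set_option linter.unusedSectionVars false

namespace Pool.Agent.W2helper25.PA

open Filter Topology Set Metric
open Pool.Agent.W2helper25.LS

universe u

variable {p : ℕ} [hp : Fact p.Prime]

/-- the action of `Γ` on the subset `X` of the `p`-adic numbers is locally given by convergent power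
series -/
def LocAn (Γ : Type u) (X : Set ℚ_[p]) [Group Γ] [MulAction Γ X] : Prop :=
  ∀ (g : Γ) (x : X), ∃ f : ℚ_[p] → ℚ_[p], AnalyticAt ℚ_[p] f x ∧
    ∀ᶠ y : X in 𝓝 x, ((g • y : X) : ℚ_[p]) = f y

lemma norm_eq_of_lt {u v : ℚ_[p]} (h : ‖u - v‖ < ‖v‖) : ‖u‖ = ‖v‖ := by
  apply le_antisymm
  · have h1 : ‖(u - v) + v‖ ≤ max ‖u - v‖ ‖v‖ := IsUltrametricDist.norm_add_le_max _ _
    rw [sub_add_cancel] at h1
    exact h1.trans (max_le h.le le_rfl)
  · by_contra h0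
    push Not at h0
    have h1 : ‖(v - u) + u‖ ≤ max ‖v - u‖ ‖u‖ := IsUltrametricDist.norm_add_le_max _ _
    rw [sub_add_cancel, norm_sub_rev] at h1
    rcases le_max_iff.1 h1 with h2 | h2 <;> linarith

variable {Γ : Type u} {X : Set ℚ_[p]} [Group Γ] [MulAction Γ X]

open Classical in
/-- the extension of the action of `g` by the identity -/
noncomputable def E (X : Set ℚ_[p]) [MulAction Γ X] (g : Γ) (y : ℚ_[p]) : ℚ_[p] :=
  if h : y ∈ X then ((g • (⟨y, h⟩ : X) : X) : ℚ_[p]) else y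

lemma E_coe (g : Γ) (x : X) : E X g x = ((g • x : X) : ℚ_[p]) := by
  unfold E
  rw [dif_pos x.2]

lemma E_mem (g : Γ) {y : ℚ_[p]} (hy : y ∈ X) : E X g y ∈ X := by
  have := E_coe (X := X) g ⟨y, hy⟩
  rw [this]
  exact Subtype.coe_prop _

lemma E_mul (g k : Γ) {y : ℚ_[p]} (hy : y ∈ X) : E X (g * k) y = E X g (E X k y) := by
  have h1 := E_coe (X := X) (g * k) ⟨y, hy⟩
  have h2 := E_coe (X := X) k ⟨y, hy⟩
  have h3 := E_coe (X := X) g (k • ⟨y, hy⟩)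
  simp only at h1 h2
  rw [h1, h2, h3, mul_smul]

lemma eventually_coe (hX : IsOpen X) {P : ℚ_[p] → Prop} {x : X} :
    (∀ᶠ y : X in 𝓝 x, P y) ↔ ∀ᶠ y in 𝓝 (x : ℚ_[p]), P y := by
  rw [← hX.nhdsWithin_eq x.2, ← map_nhds_subtype_val, eventually_map]

lemma an (hX : IsOpen X) (h : LocAn Γ X) (g : Γ) (x : X) : AnalyticAt ℚ_[p] (E X g) x := by
  obtain ⟨f, hf, he⟩ := h g x
  apply hf.congr
  rw [EventuallyEq, ← eventually_coe hX]
  filter_upwards [he] with y hy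
  rw [E_coe, hy]

/-- the derivative -/
noncomputable def der (X : Set ℚ_[p]) [MulAction Γ X] (g : Γ) (x : X) : ℚ_[p] :=
  deriv (E X g) x

lemma strict (hX : IsOpen X) (h : LocAn Γ X) (g : Γ) (x : X) :
    HasStrictDerivAt (E X g) (der X g x) x := (an hX h g x).hasStrictDerivAt

lemma cont (hX : IsOpen X) (h : LocAn Γ X) (g : Γ) : Continuous (fun x : X => g • x) := by
  rw [continuous_iff_continuousAt]
  intro x
  have h1 : ContinuousAt (E X g) x := (an hX h g x).continuousAt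
  have h2 : ContinuousAt (fun y : X => E X g y) x := h1.comp continuousAt_subtype_val
  rw [ContinuousAt, tendsto_subtype_rng]
  rw [ContinuousAt] at h2
  simpa only [E_coe] using h2

lemma der_mul (hX : IsOpen X) (h : LocAn Γ X) (g k : Γ) (x : X) :
    der X (g * k) x = der X g (k • x) * der X k x := by
  have h1 := (strict hX h k x).hasDerivAt
  have h2 := (strict hX h g (k • x)).hasDerivAt
  rw [← E_coe] at h2
  have h3 := h2.comp (x : ℚ_[p]) h1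
  unfold der at h3 ⊢
  rw [← h3.deriv]
  apply EventuallyEq.deriv_eq
  rw [EventuallyEq, ← eventually_coe hX]
  exact Eventually.of_forall fun y => E_mul g k y.2

lemma der_one (hX : IsOpen X) (x : X) : der X (1 : Γ) x = 1 := by
  unfold der
  rw [← deriv_id (x : ℚ_[p])]
  apply EventuallyEq.deriv_eq
  rw [EventuallyEq, ← eventually_coe hX]
  apply Eventually.of_forall
  intro y
  rw [E_coe, one_smul]
  rfl

lemma der_ne (hX : IsOpen X) (h : LocAn Γ X) (g : Γ) (x : X) : der X g x ≠ 0 := by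
  intro h0
  have h1 := der_mul hX h g⁻¹ g x
  rw [inv_mul_cancel, der_one hX, h0, mul_zero] at h1
  exact one_ne_zero h1

/-- linear approximation near a point -/
lemma approx (hX : IsOpen X) (h : LocAn Γ X) (g : Γ) (x : X) {ε : ℝ} (hε : 0 < ε) :
    ∃ ρ : ℝ, 0 < ρ ∧ ∀ y z : X, dist y x < ρ → dist z x < ρ →
      ‖(((g • y : X) : ℚ_[p]) - (g • z : X)) - der X g x * ((y : ℚ_[p]) - z)‖ ≤
        ε * ‖(y : ℚ_[p]) - z‖ := by
  have h1 := (strict hX h g x).hasStrictFDerivAt.isLittleO.def hε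
  rw [Metric.eventually_nhds_iff] at h1
  obtain ⟨ρ, hρ, h2⟩ := h1
  refine ⟨ρ, hρ, fun y z hy hz => ?_⟩
  have h3 := @h2 ((y : ℚ_[p]), (z : ℚ_[p])) (by
    rw [Prod.dist_eq]
    exact max_lt hy hz)
  simp only [E_coe] at h3
  have h4 : (ContinuousLinearMap.toSpanSingleton ℚ_[p] (der X g x)) ((y : ℚ_[p]) - z) =
      der X g x * ((y : ℚ_[p]) - z) := by
    simp [mul_comm]
  rw [h4] at h3
  exact h3

/-- `κ = p ^ (-2)` -/
noncomputable def κ (p : ℕ) : ℝ := ((p : ℝ) ^ 2)⁻¹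

lemma κ_pos : 0 < κ p := by
  unfold κ
  have := hp.out.pos
  positivity

lemma κ_lt : κ p < (p : ℝ)⁻¹ := by
  unfold κ
  have h1 : (1 : ℝ) < p := by exact_mod_cast hp.out.one_lt
  apply inv_strictAnti₀ (by linarith)
  nlinarith

lemma κ_lt_one : κ p < 1 := by
  refine κ_lt.trans ?_
  have h1 : (1 : ℝ) < p := by exact_mod_cast hp.out.one_lt
  exact inv_lt_one_of_one_lt₀ h1

/-- `g` is close to the multiplication by `a` on the ball of radius `ρ` -/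
def Cl (g : Γ) (x : X) (ρ : ℝ) (a : ℚ_[p]) : Prop :=
  a ≠ 0 ∧ ∀ y z : X, dist y x < ρ → dist z x < ρ →
    ‖(((g • y : X) : ℚ_[p]) - (g • z : X)) - a * ((y : ℚ_[p]) - z)‖ ≤
      κ p * (‖a‖ * ‖(y : ℚ_[p]) - z‖)

lemma Cl.simOn {g : Γ} {x : X} {ρ : ℝ} {a : ℚ_[p]} (h : Cl g x ρ a) : SimOn g x ρ ‖a‖ := by
  intro y z hy hz
  show dist ((g • y : X) : ℚ_[p]) (g • z : X) = ‖a‖ * dist (y : ℚ_[p]) z
  rw [dist_eq_norm, dist_eq_norm, ← norm_mul]
  by_cases h0 : (y : ℚ_[p]) = z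
  · have h1 : y = z := Subtype.ext h0
    rw [h1, sub_self, sub_self, mul_zero]
  · apply norm_eq_of_lt
    refine (h.2 y z hy hz).trans_lt ?_
    rw [norm_mul]
    have h1 : 0 < ‖a‖ * ‖(y : ℚ_[p]) - z‖ :=
      mul_pos (norm_pos_iff.2 h.1) (norm_pos_iff.2 (sub_ne_zero.2 h0))
    have := κ_lt_one (p := p)
    nlinarith

lemma Cl.mono {g : Γ} {x : X} {ρ ρ' : ℝ} {a : ℚ_[p]} (h : Cl g x ρ a) (hρ : ρ' ≤ ρ) :
    Cl g x ρ' a := ⟨h.1, fun y z hy hz => h.2 y z (hy.trans_le hρ) (hz.trans_le hρ)⟩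

lemma Cl.mul {g k : Γ} {x : X} {ρ ρ' : ℝ} {a b : ℚ_[p]} (hρ : 0 < ρ) (h : Cl k x ρ a)
    (h' : Cl g (k • x) ρ' b) (hr : ‖a‖ * ρ ≤ ρ') : Cl (g * k) x ρ (b * a) := by
  refine ⟨mul_ne_zero h'.1 h.1, ?_⟩
  intro y z hy hz
  have hx : dist x x < ρ := by rw [dist_self]; exact hρ
  have key : ∀ w : X, dist w x < ρ → dist (k • w) (k • x) < ρ' := by
    intro w hw
    rw [h.simOn w x hw hx]
    exact (mul_lt_mul_of_pos_left hw (norm_pos_iff.2 h.1)).trans_le hr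
  have h1 := h'.2 _ _ (key y hy) (key z hz)
  have h2 := h.2 y z hy hz
  have h3 : ‖((k • y : X) : ℚ_[p]) - (k • z : X)‖ = ‖a‖ * ‖(y : ℚ_[p]) - z‖ := by
    have := h.simOn y z hy hz
    rw [← dist_eq_norm, ← dist_eq_norm]
    exact this
  rw [h3] at h1
  have h4 : (((g * k) • y : X) : ℚ_[p]) - ((g * k) • z : X) - b * a * ((y : ℚ_[p]) - z) =
      ((((g • k • y : X) : ℚ_[p]) - (g • k • z : X)) -
        b * (((k • y : X) : ℚ_[p]) - (k • z : X))) +
      b * ((((k • y : X) : ℚ_[p]) - (k • z : X)) - a * ((y : ℚ_[p]) - z)) := by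
    rw [mul_smul, mul_smul]
    ring
  rw [h4]
  refine (IsUltrametricDist.norm_add_le_max _ _).trans (max_le ?_ ?_)
  · rw [norm_mul b a, mul_assoc]
    exact h1
  · rw [norm_mul, norm_mul b a]
    have h5 : 0 ≤ ‖b‖ := norm_nonneg _
    calc ‖b‖ * _ ≤ ‖b‖ * (κ p * (‖a‖ * ‖(y : ℚ_[p]) - z‖)) := mul_le_mul_of_nonneg_left h2 h5
      _ = κ p * (‖b‖ * ‖a‖ * ‖(y : ℚ_[p]) - z‖) := by ring

lemma exists_Cl (hX : IsOpen X) (h : LocAn Γ X) (g : Γ) (x : X) :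
    ∃ ρ : ℝ, 0 < ρ ∧ Cl g x ρ (der X g x) := by
  have h0 : 0 < ‖der X g x‖ := norm_pos_iff.2 (der_ne hX h g x)
  obtain ⟨ρ, hρ, h1⟩ := approx hX h g x (mul_pos (κ_pos (p := p)) h0)
  refine ⟨ρ, hρ, der_ne hX h g x, fun y z hy hz => ?_⟩
  rw [← mul_assoc]
  exact h1 y z hy hz

lemma locSim (hX : IsOpen X) (h : LocAn Γ X) : LocSim Γ X := by
  intro g x
  obtain ⟨ρ, hρ, h1⟩ := exists_Cl hX h g x
  exact ⟨ρ, hρ, ‖der X g x‖, norm_pos_iff.2 (der_ne hX h g x), h1.simOn⟩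

lemma perfect (hX : IsOpen X) (x : X) : (𝓝[≠] x).NeBot := by
  rw [← mem_closure_iff_nhdsWithin_neBot, Metric.mem_closure_iff]
  intro ε hε
  obtain ⟨δ, hδ, h1⟩ := Metric.isOpen_iff.1 hX x x.2
  have h2 : (𝓝[≠] (x : ℚ_[p])).NeBot := inferInstance
  rw [← mem_closure_iff_nhdsWithin_neBot, Metric.mem_closure_iff] at h2
  obtain ⟨y, hy, hxy⟩ := h2 (min ε δ) (lt_min hε hδ)
  have hyX : y ∈ X := h1 (by rw [mem_ball, dist_comm]; exact hxy.trans_le (min_le_right _ _))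
  refine ⟨⟨y, hyX⟩, ?_, hxy.trans_le (min_le_left _ _)⟩
  intro h3
  apply hy
  rw [mem_singleton_iff] at h3 ⊢
  rw [← h3]

end Pool.Agent.W2helper25.PA
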