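import Mathlib

/-!
# Commuting analytic germs
-/

set_option autoImplicit false

namespace Pool.Agent.W2helper25.PA

open Filter Topology

universe u v

variable {𝕜 : Type u} [NontriviallyNormedField 𝕜]

/-- difference quotients along a filter -/
lemma strict_ratio {f : 𝕜 → 𝕜} {f' z : 𝕜} (hf : HasStrictDerivAt f f' z) {α : Type v}
    {l : Filter α} {a b : α → 𝕜} (ha : Tendsto a l (𝓝 z)) (hb : Tendsto b l (𝓝 z))
    (hab : ∀ᶠ t in l, a t ≠ b t) :
    Tendsto (fun t => (f (a t) - f (b t)) / (a t - b t)) l (𝓝 f') := by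
  have h1 := hf.hasStrictFDerivAt.isLittleO
  have h2 : Tendsto (fun t => (a t, b t)) l (𝓝 (z, z)) := ha.prodMk_nhds hb
  have h3 := h1.comp_tendsto h2
  have h4 : (fun t => (f (a t) - f (b t) - f' * (a t - b t))) =o[l] (fun t => a t - b t) := by
    refine h3.congr_left ?_
    intro t
    simp [mul_comm]
  rw [Asymptotics.isLittleO_iff_tendsto' (hab.mono fun t ht h0 => absurd (sub_eq_zero.1 h0) ht)]
    at h4
  have h5 := h4.add_const f'
  rw [zero_add] at h5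
  refine h5.congr' ?_
  filter_upwards [hab] with t ht
  have h6 : a t - b t ≠ 0 := sub_ne_zero.2 ht
  field_simp
  ring

/-- the variation of a function with a zero of order `m` -/
lemma var_ratio {f k : 𝕜 → 𝕜} {z k' : 𝕜} {m : ℕ} (hm : 0 < m)
    (hf : ∀ᶠ y in 𝓝 z, f y = (y - z) ^ m * k y) (hk : HasStrictDerivAt k k' z)
    {s : 𝕜 → 𝕜} (hs : ∀ᶠ y in 𝓝[≠] z, s y ≠ 0)
    (hs0 : Tendsto (fun y => s y / (y - z)) (𝓝[≠] z) (𝓝 0)) :
    Tendsto (fun y => (f (y + s y) - f y) / ((y - z) ^ (m - 1) * s y)) (𝓝[≠] z)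
      (𝓝 (m * k z)) := by
  have hid : Tendsto (fun y : 𝕜 => y) (𝓝[≠] z) (𝓝 z) := tendsto_nhdsWithin_of_tendsto_nhds tendsto_id
  have hw : Tendsto (fun y : 𝕜 => y - z) (𝓝[≠] z) (𝓝 0) := by
    have := hid.sub_const z
    rwa [sub_self] at this
  have hne : ∀ᶠ y in 𝓝[≠] z, y ≠ z := eventually_mem_nhdsWithin
  have hst : Tendsto s (𝓝[≠] z) (𝓝 0) := by
    have := hs0.mul hw
    rw [mul_zero] at this
    refine this.congr' ?_
    filter_upwards [hne] with y hy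
    exact div_mul_cancel₀ _ (sub_ne_zero.2 hy)
  have hys : Tendsto (fun y => y + s y) (𝓝[≠] z) (𝓝 z) := by
    have := hid.add hst
    rwa [add_zero] at this
  have h1 : Tendsto (fun y => ((1 + s y / (y - z)) ^ m - 1 ^ m) / ((1 + s y / (y - z)) - 1))
      (𝓝[≠] z) (𝓝 (m * 1 ^ (m - 1))) := by
    apply strict_ratio (hasStrictDerivAt_pow m 1)
    · have := hs0.const_add 1
      rwa [add_zero] at this
    · exact tendsto_const_nhds
    · filter_upwards [hs, hne] with y hy hyz h0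
      have h2 : s y / (y - z) = 0 := by simpa using h0
      rcases div_eq_zero_iff.1 h2 with h3 | h3
      · exact hy h3
      · exact hyz (sub_eq_zero.1 h3)
  have h2 : Tendsto (fun y => (k (y + s y) - k y) / ((y + s y) - y)) (𝓝[≠] z) (𝓝 k') := by
    apply strict_ratio hk hys hid
    filter_upwards [hs] with y hy h0
    apply hy
    simpa using h0
  have h3 : Tendsto (fun y => k (y + s y)) (𝓝[≠] z) (𝓝 (k z)) :=
    (hk.hasDerivAt.continuousAt.tendsto).comp hys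
  have h4 := (h1.mul h3).add (hw.mul h2)
  have e : (m : 𝕜) * 1 ^ (m - 1) * k z + 0 * k' = m * k z := by ring
  rw [e] at h4
  refine h4.congr' ?_
  have hf1 : ∀ᶠ y in 𝓝[≠] z, f y = (y - z) ^ m * k y := hf.filter_mono nhdsWithin_le_nhds
  have hf2 : ∀ᶠ y in 𝓝[≠] z, f (y + s y) = (y + s y - z) ^ m * k (y + s y) := hys.eventually hf
  filter_upwards [hs, hne, hf1, hf2] with y h5 h6 h7 h8
  rw [h7, h8]
  have h9 : y - z ≠ 0 := sub_ne_zero.2 h6
  obtain ⟨m', rfl⟩ : ∃ m', m = m' + 1 := ⟨m - 1, by omega⟩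
  rw [Nat.add_sub_cancel]
  have e1 : 1 + s y / (y - z) = (y + s y - z) / (y - z) := by
    field_simp
    ring
  rw [e1, add_sub_cancel_left, div_pow, one_pow]
  have e2 : (y + s y - z) / (y - z) - 1 = s y / (y - z) := by
    field_simp
    ring
  rw [e2]
  field_simp
  ring

/-- the composition with a germ which fixes the point -/
lemma comp_ratio {f k : 𝕜 → 𝕜} {z : 𝕜} {n : ℕ}
    (hf : ∀ᶠ y in 𝓝 z, f y = (y - z) ^ n * k y) (hk : ContinuousAt k z) (hkz : k z ≠ 0)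
    {h : 𝕜 → 𝕜} {μ : 𝕜} (hh : HasStrictDerivAt h μ z) (hhz : h z = z) :
    Tendsto (fun y => f (h y) / f y) (𝓝[≠] z) (𝓝 (μ ^ n)) := by
  have hid : Tendsto (fun y : 𝕜 => y) (𝓝[≠] z) (𝓝 z) := tendsto_nhdsWithin_of_tendsto_nhds tendsto_id
  have hne : ∀ᶠ y in 𝓝[≠] z, y ≠ z := eventually_mem_nhdsWithin
  have hht : Tendsto h (𝓝[≠] z) (𝓝 z) := by
    have := hh.hasDerivAt.continuousAt.tendsto
    rw [hhz] at this
    exact this.comp hid
  have h1 : Tendsto (fun y => (h y - h z) / (y - z)) (𝓝[≠] z) (𝓝 μ) :=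
    strict_ratio hh hid tendsto_const_nhds hne
  rw [hhz] at h1
  have h2 : Tendsto (fun y => k (h y) / k y) (𝓝[≠] z) (𝓝 1) := by
    have h3 := (hk.tendsto.comp hht).div (hk.tendsto.comp hid) hkz
    rwa [div_self hkz] at h3
  have h3 := (h1.pow n).mul h2
  rw [mul_one] at h3
  refine h3.congr' ?_
  have hf1 : ∀ᶠ y in 𝓝[≠] z, f y = (y - z) ^ n * k y := hf.filter_mono nhdsWithin_le_nhds
  have hf2 : ∀ᶠ y in 𝓝[≠] z, f (h y) = (h y - z) ^ n * k (h y) := hht.eventually hf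
  filter_upwards [hf1, hf2, hne] with y h4 h5 h6
  rw [h4, h5, div_pow]
  have h9 : (y - z) ^ n ≠ 0 := pow_ne_zero _ (sub_ne_zero.2 h6)
  rw [div_mul_div_comm]

/-- commuting germs: the multiplier -/
theorem multiplier {d h k : 𝕜 → 𝕜} {z μ : 𝕜} {n : ℕ}
    (hd : ∀ᶠ y in 𝓝 z, d y - y = (y - z) ^ n * k y) (hk : ContinuousAt k z) (hkz : k z ≠ 0)
    (hdc : Tendsto d (𝓝[≠] z) (𝓝 z))
    (hh : HasStrictDerivAt h μ z) (hhz : h z = z) (hc : ∀ᶠ y in 𝓝 z, d (h y) = h (d y)) :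
    μ ^ n = μ := by
  have hid : Tendsto (fun y : 𝕜 => y) (𝓝[≠] z) (𝓝 z) := tendsto_nhdsWithin_of_tendsto_nhds tendsto_id
  have hne : ∀ᶠ y in 𝓝[≠] z, y ≠ z := eventually_mem_nhdsWithin
  have h1 : Tendsto (fun y => (d (h y) - h y) / (d y - y)) (𝓝[≠] z) (𝓝 (μ ^ n)) :=
    comp_ratio (f := fun y => d y - y) hd hk hkz hh hhz
  have hkne : ∀ᶠ y in 𝓝[≠] z, k y ≠ 0 := (hk.tendsto.comp hid).eventually_ne hkz
  have hdne : ∀ᶠ y in 𝓝[≠] z, d y ≠ y := by
    filter_upwards [hd.filter_mono nhdsWithin_le_nhds, hne, hkne] with y h2 h3 h4 h5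
    rw [h5, sub_self] at h2
    exact mul_ne_zero (pow_ne_zero _ (sub_ne_zero.2 h3)) h4 h2.symm
  have h2 : Tendsto (fun y => (h (d y) - h y) / (d y - y)) (𝓝[≠] z) (𝓝 μ) :=
    strict_ratio hh hdc hid hdne
  refine tendsto_nhds_unique h1 (h2.congr' ?_)
  filter_upwards [hc.filter_mono nhdsWithin_le_nhds] with y h3
  rw [h3]

/-- commuting germs: the limit of the ratio of the displacements -/
theorem exists_limit [CharZero 𝕜] [CompleteSpace 𝕜] {d h k : 𝕜 → 𝕜} {z : 𝕜} {n : ℕ}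
    (hd : ∀ᶠ y in 𝓝 z, d y - y = (y - z) ^ n * k y) (hk : AnalyticAt 𝕜 k z) (hkz : k z ≠ 0)
    (hd1 : HasDerivAt d 1 z) (hdz : d z = z)
    (hh : AnalyticAt 𝕜 h z) (hh1 : HasDerivAt h 1 z) (hhz : h z = z)
    (hc : ∀ᶠ y in 𝓝 z, d (h y) = h (d y)) :
    ∃ s : 𝕜, Tendsto (fun y => (h y - y) / (d y - y)) (𝓝[≠] z) (𝓝 s) := by
  by_cases h0 : ∀ᶠ y in 𝓝 z, h y - y = 0
  · refine ⟨0, tendsto_const_nhds.congr' ?_⟩
    filter_upwards [h0.filter_mono nhdsWithin_le_nhds] with y hy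
    rw [hy, zero_div]
  have hid : Tendsto (fun y : 𝕜 => y) (𝓝[≠] z) (𝓝 z) := tendsto_nhdsWithin_of_tendsto_nhds tendsto_id
  have hne : ∀ᶠ y in 𝓝[≠] z, y ≠ z := eventually_mem_nhdsWithin
  obtain ⟨m, l, hl, hlz, hh2⟩ := ((hh.sub analyticAt_id).exists_eventuallyEq_pow_smul_nonzero_iff).2 h0
  have hh' : ∀ᶠ y in 𝓝 z, h y - y = (y - z) ^ m * l y := by
    filter_upwards [hh2] with y hy
    simpa [smul_eq_mul] using hy
  -- the orders are positive
  have pos : ∀ {f q : 𝕜 → 𝕜} {j : ℕ}, f z = z → q z ≠ 0 →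
      (∀ᶠ y in 𝓝 z, f y - y = (y - z) ^ j * q y) → 0 < j := by
    intro f q j h1 h2 h3
    rcases Nat.eq_zero_or_pos j with h4 | h4
    · subst h4
      have := h3.self_of_nhds
      rw [h1, sub_self, pow_zero, one_mul] at this
      exact absurd this.symm h2
    · exact h4
  have hn := pos hdz hkz hd
  have hm := pos hhz hlz hh'
  -- the displacements are small and do not vanish
  have small : ∀ {f : 𝕜 → 𝕜}, HasDerivAt f 1 z → f z = z →
      Tendsto (fun y => (f y - y) / (y - z)) (𝓝[≠] z) (𝓝 0) := by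
    intro f h1 h2
    have h3 := (hasDerivAt_iff_tendsto_slope.1 h1).sub_const 1
    rw [sub_self] at h3
    refine h3.congr' ?_
    filter_upwards [hne] with y hy
    rw [slope_def_field, h2]
    have := sub_ne_zero.2 hy
    field_simp
    ring
  have nev : ∀ {f q : 𝕜 → 𝕜} {j : ℕ}, ContinuousAt q z → q z ≠ 0 →
      (∀ᶠ y in 𝓝 z, f y - y = (y - z) ^ j * q y) → ∀ᶠ y in 𝓝[≠] z, f y - y ≠ 0 := by
    intro f q j h1 h2 h3
    have h4 : ∀ᶠ y in 𝓝[≠] z, q y ≠ 0 := (h1.tendsto.comp hid).eventually_ne h2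
    filter_upwards [h3.filter_mono nhdsWithin_le_nhds, hne, h4] with y h5 h6 h7
    rw [h5]
    exact mul_ne_zero (pow_ne_zero _ (sub_ne_zero.2 h6)) h7
  have hdn := nev hk.continuousAt hkz hd
  have hhn := nev hl.continuousAt hlz hh'
  have r1 := var_ratio (f := fun y => h y - y) (s := fun y => d y - y) hm hh'
    hl.hasStrictDerivAt hdn (small hd1 hdz)
  have r2 := var_ratio (f := fun y => d y - y) (s := fun y => h y - y) hn hd
    hk.hasStrictDerivAt hhn (small hh1 hhz)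
  have r3 := r1.mul (hk.continuousAt.tendsto.comp hid)
  have r4 := r2.mul (hl.continuousAt.tendsto.comp hid)
  have heq : (m : 𝕜) * l z * k z = n * k z * l z := by
    refine tendsto_nhds_unique r3 (r4.congr' ?_)
    filter_upwards [hd.filter_mono nhdsWithin_le_nhds, hh'.filter_mono nhdsWithin_le_nhds,
      hc.filter_mono nhdsWithin_le_nhds, hne, hdn, hhn] with y e1 e2 e3 e4 e5 e6
    simp only [Function.comp_apply, add_sub_cancel]
    rw [e3]
    have h9 : y - z ≠ 0 := sub_ne_zero.2 e4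
    have hk0 : k y ≠ 0 := by
      intro h
      rw [h, mul_zero] at e1
      exact e5 e1
    have hl0 : l y ≠ 0 := by
      intro h
      rw [h, mul_zero] at e2
      exact e6 e2
    have e7 : h (d y) - h y - (d y - y) = h (d y) - d y - (h y - y) := by ring
    rw [e7, e1, e2]
    obtain ⟨m', rfl⟩ : ∃ m', m = m' + 1 := ⟨m - 1, by omega⟩
    obtain ⟨n', rfl⟩ : ∃ n', n = n' + 1 := ⟨n - 1, by omega⟩
    rw [Nat.add_sub_cancel, Nat.add_sub_cancel]
    field_simp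
    ring
  have hmn : m = n := by
    have h1 : (m : 𝕜) * (l z * k z) = n * (l z * k z) := by
      rw [← mul_assoc, heq]
      ring
    exact Nat.cast_injective (R := 𝕜) (mul_right_cancel₀ (mul_ne_zero hlz hkz) h1)
  subst hmn
  refine ⟨l z / k z, ((hl.continuousAt.tendsto.comp hid).div
    (hk.continuousAt.tendsto.comp hid) hkz).congr' ?_⟩
  filter_upwards [hd.filter_mono nhdsWithin_le_nhds, hh'.filter_mono nhdsWithin_le_nhds,
      hne] with y e1 e2 e4
  rw [e1, e2]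
  have h9 : (y - z) ^ m ≠ 0 := pow_ne_zero _ (sub_ne_zero.2 e4)
  rw [mul_div_mul_left _ _ h9]
  rfl

/-- additivity of the limits -/
theorem limit_add {d h h' k : 𝕜 → 𝕜} {z s s' : 𝕜} {n : ℕ}
    (hd : ∀ᶠ y in 𝓝 z, d y - y = (y - z) ^ n * k y) (hk : ContinuousAt k z) (hkz : k z ≠ 0)
    (hh' : HasStrictDerivAt h' 1 z) (hhz' : h' z = z)
    (hs : Tendsto (fun y => (h y - y) / (d y - y)) (𝓝[≠] z) (𝓝 s))
    (hs' : Tendsto (fun y => (h' y - y) / (d y - y)) (𝓝[≠] z) (𝓝 s')) :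
    Tendsto (fun y => (h (h' y) - y) / (d y - y)) (𝓝[≠] z) (𝓝 (s + s')) := by
  have hid : Tendsto (fun y : 𝕜 => y) (𝓝[≠] z) (𝓝 z) := tendsto_nhdsWithin_of_tendsto_nhds tendsto_id
  have hne : ∀ᶠ y in 𝓝[≠] z, y ≠ z := eventually_mem_nhdsWithin
  have h1 : Tendsto (fun y => (d (h' y) - h' y) / (d y - y)) (𝓝[≠] z) (𝓝 (1 ^ n)) :=
    comp_ratio (f := fun y => d y - y) hd hk hkz hh' hhz'
  have hp : Tendsto h' (𝓝[≠] z) (𝓝[≠] z) := by
    have := hh'.hasDerivAt.tendsto_nhdsNE one_ne_zero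
    rwa [hhz'] at this
  have h2 := ((hs.comp hp).mul h1).add hs'
  rw [one_pow, mul_one] at h2
  refine h2.congr' ?_
  have hkne : ∀ᶠ y in 𝓝[≠] z, k y ≠ 0 := (hk.tendsto.comp hid).eventually_ne hkz
  have hdn : ∀ᶠ y in 𝓝[≠] z, d y - y ≠ 0 := by
    filter_upwards [hd.filter_mono nhdsWithin_le_nhds, hne, hkne] with y h2 h3 h4 h5
    rw [h5] at h2
    exact mul_ne_zero (pow_ne_zero _ (sub_ne_zero.2 h3)) h4 h2.symm
  filter_upwards [hdn, hp.eventually hdn] with y e1 e2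
  simp only [Function.comp_apply]
  field_simp
  ring

end Pool.Agent.W2helper25.PA
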