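import Pool.Agent.W2helper25.PA.Orb
import Pool.Agent.W2helper25.PA.Germ

/-!
# The fixed points of a central element which is close to the identity
-/

set_option autoImplicit false
set_option linter.unusedSectionVars false

namespace Pool.Agent.W2helper25.PA

open Filter Topology Set Metric
open Pool.Agent.W2helper25.LS
open Pool.Agent.W2helper35.TM (transfer_hom)

universe u v

variable {p : ℕ} [hp : Fact p.Prime]
variable {Γ : Type u} {X : Set ℚ_[p]} [Group Γ] [MulAction Γ X]

/-- the fixed points of `d` near which `d` is not the identity -/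
def Iso (d : Γ) (X : Set ℚ_[p]) [MulAction Γ X] : Set X :=
  {z | d • z = z ∧ ¬ ∀ᶠ y in 𝓝 z, d • y = y}

lemma eventually_fix_iff (hX : IsOpen X) (d : Γ) (z : X) :
    (∀ᶠ y in 𝓝 z, d • y = y) ↔ ∀ᶠ y in 𝓝 (z : ℚ_[p]), E X d y - y = 0 := by
  rw [← eventually_coe hX]
  apply eventually_congr
  apply Eventually.of_forall
  intro y
  rw [E_coe, sub_eq_zero]
  exact ⟨fun h => by rw [h], fun h => Subtype.ext h⟩

lemma iso_isolated (hX : IsOpen X) (h : LocAn Γ X) {d : Γ} {z : X} (hz : z ∈ Iso d X) :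
    ∀ᶠ y in 𝓝[≠] (z : ℚ_[p]), E X d y - y ≠ 0 := by
  have h1 : AnalyticAt ℚ_[p] (fun y => E X d y - y) z := (an hX h d z).sub analyticAt_id
  rcases h1.eventually_eq_zero_or_eventually_ne_zero with h2 | h2
  · exact absurd ((eventually_fix_iff hX d z).2 h2) hz.2
  · exact h2

lemma iso_finite [CompactSpace X] (hX : IsOpen X) (h : LocAn Γ X) (d : Γ) :
    (Iso d X).Finite := by
  have h1 : ∀ x : X, ∃ U ∈ 𝓝 x, U ∩ Iso d X ⊆ {x} := by
    intro x
    by_cases hx : d • x = x
    · by_cases hx2 : ∀ᶠ y in 𝓝 x, d • y = y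
      · refine ⟨{y | ∀ᶠ w in 𝓝 y, d • w = w}, eventually_eventually_nhds.2 hx2, ?_⟩
        rintro y ⟨hy1, hy2⟩
        exact absurd hy1 hy2.2
      · have h2 := iso_isolated hX h (d := d) (z := x) ⟨hx, hx2⟩
        rw [eventually_nhdsWithin_iff] at h2
        have h3 := (eventually_coe hX (x := x)).2 h2
        refine ⟨_, h3, ?_⟩
        rintro y ⟨hy1, hy2⟩
        by_contra hne
        have hne' : (y : ℚ_[p]) ∈ ({(x : ℚ_[p])}ᶜ : Set ℚ_[p]) := by
          intro h4
          exact hne (Subtype.ext h4)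
        apply hy1 hne'
        rw [E_coe, hy2.1, sub_self]
    · refine ⟨{y | d • y ≠ y}, ?_, ?_⟩
      · exact (isOpen_ne_fun (cont hX h d) continuous_id).mem_nhds hx
      · rintro y ⟨hy1, hy2⟩
        exact absurd hy2.1 hy1
  choose U hU hUs using h1
  obtain ⟨t, ht⟩ := (isCompact_univ (X := X)).elim_nhds_subcover U (fun x _ => hU x)
  apply t.finite_toSet.subset
  intro z hz
  obtain ⟨x, hx1, hx2⟩ := mem_iUnion₂.1 (ht.2 (mem_univ z))
  have := hUs x ⟨hx2, hz⟩
  rw [mem_singleton_iff] at this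
  rw [this]
  exact hx1

lemma iso_smul (hX : IsOpen X) (h : LocAn Γ X) {d : Γ} (hdc : ∀ g : Γ, g * d = d * g) {z : X}
    (hz : z ∈ Iso d X) (g : Γ) : g • z ∈ Iso d X := by
  refine ⟨?_, ?_⟩
  · rw [← mul_smul, ← hdc, mul_smul, hz.1]
  · intro h1
    apply hz.2
    filter_upwards [(cont hX h g).continuousAt.eventually h1] with y hy
    rw [← mul_smul, ← hdc, mul_smul] at hy
    exact MulAction.injective g hy

lemma stabilizer_finiteIndex [CompactSpace X] (hX : IsOpen X) (h : LocAn Γ X) {d : Γ}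
    (hdc : ∀ g : Γ, g * d = d * g) {z : X} (hz : z ∈ Iso d X) :
    (MulAction.stabilizer Γ z).FiniteIndex := by
  have h1 : (MulAction.orbit Γ z).Finite := by
    apply (iso_finite hX h d).subset
    rintro _ ⟨g, rfl⟩
    exact iso_smul hX h hdc hz g
  have := h1.to_subtype
  have : Finite (Γ ⧸ MulAction.stabilizer Γ z) :=
    Finite.of_equiv _ (MulAction.orbitEquivQuotientStabilizer Γ z)
  exact Subgroup.finiteIndex_of_finite_quotient

/-- the multiplier at a fixed point -/
noncomputable def mult (hX : IsOpen X) (h : LocAn Γ X) (z : X) :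
    MulAction.stabilizer Γ z →* ℚ_[p]ˣ where
  toFun g := Units.mk0 (der X (g : Γ) z) (der_ne hX h g z)
  map_one' := by
    apply Units.ext
    exact der_one hX z
  map_mul' := by
    intro g k
    apply Units.ext
    show der X ((g : Γ) * k) z = der X (g : Γ) z * der X (k : Γ) z
    rw [der_mul hX h]
    congr 2
    exact k.2

/-- the displacement near a fixed point -/
lemma slope_disp (hX : IsOpen X) (h : LocAn Γ X) {d : Γ} {z : X} (hz : d • z = z) :
    Tendsto (fun y : ℚ_[p] => (E X d y - y) / (y - z)) (𝓝[≠] (z : ℚ_[p])) (𝓝 (der X d z - 1)) := by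
  have h1 : HasDerivAt (fun y : ℚ_[p] => E X d y - y) (der X d z - 1) z :=
    (strict hX h d z).hasDerivAt.sub (hasDerivAt_id _)
  refine (hasDerivAt_iff_tendsto_slope.1 h1).congr' ?_
  filter_upwards with y
  rw [slope_def_field, E_coe, hz]
  simp

lemma norm_der_pow_sub_one (hX : IsOpen X) (h : LocAn Γ X) {d : Γ} {r : ℝ} (hd : NearId d X r)
    {z : X} (hz : d • z = z) (n : ℕ) :
    ‖der X (d ^ n) z - 1‖ = ‖(n : ℚ_[p])‖ * ‖der X d z - 1‖ := by
  have hzn : d ^ n • z = z := by
    induction n with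
    | zero => rw [pow_zero, one_smul]
    | succ n ih => rw [pow_succ, mul_smul, hz, ih]
  have h1 := (slope_disp hX h hzn).norm
  have h2 := (slope_disp hX h hz).norm.const_mul ‖(n : ℚ_[p])‖
  refine tendsto_nhds_unique h1 (h2.congr' ?_)
  have h3 : ∀ᶠ y in 𝓝 (z : ℚ_[p]), y ∈ X := hX.mem_nhds z.2
  filter_upwards [h3.filter_mono nhdsWithin_le_nhds] with y hy
  have h4 := hd.norm_disp_pow n ⟨y, hy⟩
  have e1 : ∀ g : Γ, E X g y - y = disp g ⟨y, hy⟩ := by
    intro g
    have := E_coe g ⟨y, hy⟩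
    simp only at this
    rw [this]
    rfl
  rw [norm_div, norm_div, e1, e1, h4]
  ring

/-- the case of a nontrivial multiplier -/
theorem hom_of_mult [CompactSpace X] (hX : IsOpen X) (h : LocAn Γ X) {d : Γ}
    (hdc : ∀ g : Γ, g * d = d * g) {r : ℝ} (hd : NearId d X r) {z : X} (hz : z ∈ Iso d X)
    (hm : der X d z ≠ 1) : ∃ φ : Γ →* Multiplicative ℝ, φ d ≠ 1 := by
  have := stabilizer_finiteIndex hX h hdc hz
  have hdm : d ∈ MulAction.stabilizer Γ z := hz.1
  let τ : MulAction.stabilizer Γ z →* Multiplicative (Additive ℚ_[p]ˣ) :=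
    { toFun := fun g => Multiplicative.ofAdd (Additive.ofMul (mult hX h z g))
      map_one' := by rw [map_one]; rfl
      map_mul' := fun a b => by rw [map_mul]; rfl }
  obtain ⟨φ, hφ⟩ := exists_real τ ⟨d, hdm⟩ (by
    intro n hn h0
    have h1 : (mult hX h z ⟨d, hdm⟩) ^ n = 1 := Additive.ofMul.injective (by
      rw [ofMul_pow]
      exact h0)
    rw [← map_pow] at h1
    have h2 : der X (d ^ n) z = 1 := congrArg Units.val h1
    have h3 := norm_der_pow_sub_one hX h hd hz.1 n
    rw [h2, sub_self, norm_zero] at h3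
    rcases mul_eq_zero.1 h3.symm with h4 | h4
    · rw [norm_eq_zero, Nat.cast_eq_zero] at h4
      omega
    · exact hm (sub_eq_zero.1 (norm_eq_zero.1 h4)))
  exact transfer_hom d (fun g => hdc g) _ φ 1 (by rw [pow_one]; exact hdm) (by simpa using hφ)

/-- the case of a trivial multiplier -/
theorem hom_of_tangent [CompactSpace X] (hX : IsOpen X) (h : LocAn Γ X) {d : Γ}
    (hdc : ∀ g : Γ, g * d = d * g) {z : X} (hz : z ∈ Iso d X)
    (hm : der X d z = 1) : ∃ φ : Γ →* Multiplicative ℝ, φ d ≠ 1 := by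
  have := stabilizer_finiteIndex hX h hdc hz
  have hdm : d ∈ MulAction.stabilizer Γ z := hz.1
  have han : AnalyticAt ℚ_[p] (fun y => E X d y - y) z := (an hX h d z).sub analyticAt_id
  obtain ⟨n, k, hk, hkz, hdk⟩ := han.exists_eventuallyEq_pow_smul_nonzero_iff.2
    (fun h0 => hz.2 ((eventually_fix_iff hX d z).2 h0))
  have hdk' : ∀ᶠ y in 𝓝 (z : ℚ_[p]), E X d y - y = (y - z) ^ n * k y := hdk
  have hEz : ∀ g : Γ, g • z = z → E X g z = z := by
    intro g hg
    rw [E_coe, hg]
  have hXn : ∀ᶠ y in 𝓝[≠] (z : ℚ_[p]), y ∈ X := by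
    have h1 : ∀ᶠ y in 𝓝 (z : ℚ_[p]), y ∈ X := hX.mem_nhds z.2
    exact h1.filter_mono nhdsWithin_le_nhds
  -- the order is at least two
  have hn : 2 ≤ n := by
    by_contra hn
    have h1 := slope_disp hX h hz.1
    rw [hm, sub_self] at h1
    have hid : Tendsto (fun y : ℚ_[p] => y) (𝓝[≠] (z : ℚ_[p])) (𝓝 z) :=
      tendsto_nhdsWithin_of_tendsto_nhds tendsto_id
    rcases Nat.eq_zero_or_pos n with h0 | h0
    · subst h0
      have := hdk'.self_of_nhds
      rw [hEz d hz.1, sub_self, pow_zero, one_mul] at this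
      exact hkz this.symm
    · have h2 : n = 1 := by omega
      subst h2
      have h3 : Tendsto k (𝓝[≠] (z : ℚ_[p])) (𝓝 (k (z : ℚ_[p]))) :=
        hk.continuousAt.tendsto.comp hid
      refine hkz (tendsto_nhds_unique h3 (h1.congr' ?_))
      have hne : ∀ᶠ y : ℚ_[p] in 𝓝[≠] (z : ℚ_[p]), y ≠ (z : ℚ_[p]) := eventually_mem_nhdsWithin
      filter_upwards [hdk'.filter_mono nhdsWithin_le_nhds, hne] with y h4 h5
      rw [h4, pow_one]
      have := sub_ne_zero.2 h5
      field_simp
  have hcomm : ∀ g : Γ, ∀ᶠ y in 𝓝 (z : ℚ_[p]), E X d (E X g y) = E X g (E X d y) := by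
    intro g
    filter_upwards [hX.mem_nhds z.2] with y hy
    rw [← E_mul d g hy, ← E_mul g d hy, hdc]
  have hdt : Tendsto (E X d) (𝓝[≠] (z : ℚ_[p])) (𝓝 z) := by
    have h1 := (an hX h d z).continuousAt.tendsto
    rw [hEz d hz.1] at h1
    exact h1.comp (tendsto_nhdsWithin_of_tendsto_nhds tendsto_id)
  -- the multipliers are roots of unity
  have hroot : ∀ g : MulAction.stabilizer Γ z, (mult hX h z g) ^ (n - 1) = 1 := by
    intro g
    have h1 : (der X (g : Γ) z) ^ n = der X (g : Γ) z :=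
      multiplier (d := E X d) (h := E X (g : Γ)) hdk' hk.continuousAt hkz hdt
        (strict hX h g z) (hEz g g.2) (hcomm g)
    apply Units.ext
    rw [Units.val_pow_eq_pow_val, Units.val_one]
    show (der X (g : Γ) z) ^ (n - 1) = 1
    have h2 := der_ne hX h (g : Γ) z
    apply mul_right_cancel₀ h2
    rw [← pow_succ, Nat.sub_add_cancel (by omega), h1, one_mul]
  have hfin : Finite (mult hX h z).range := by
    have h1 : ((mult hX h z).range : Set ℚ_[p]ˣ) ⊆ (rootsOfUnity (n - 1) ℚ_[p] : Set ℚ_[p]ˣ) := by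
      rintro _ ⟨g, rfl⟩
      exact (mem_rootsOfUnity _ _).2 (hroot g)
    have : NeZero (n - 1) := ⟨by omega⟩
    have h2 : Finite (rootsOfUnity (n - 1) ℚ_[p]) := inferInstance
    have h3 : (rootsOfUnity (n - 1) ℚ_[p] : Set ℚ_[p]ˣ).Finite := h2
    exact (h3.subset h1).to_subtype
  -- the limits
  have hlim : ∀ g : (mult hX h z).ker, ∃ s : ℚ_[p],
      Tendsto (fun y => (E X (g : Γ) y - y) / (E X d y - y)) (𝓝[≠] (z : ℚ_[p])) (𝓝 s) := by
    intro g
    have h1 : der X (((g : MulAction.stabilizer Γ z) : Γ)) z = 1 := congrArg Units.val g.2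
    have h2 := (strict hX h (((g : MulAction.stabilizer Γ z) : Γ)) z).hasDerivAt
    rw [h1] at h2
    have h3 := (strict hX h d z).hasDerivAt
    rw [hm] at h3
    exact exists_limit hdk' hk hkz h3 (hEz d hz.1) (an hX h _ z) h2
      (hEz _ (g : MulAction.stabilizer Γ z).2) (hcomm _)
  choose s hs using hlim
  have hdker : (⟨d, hdm⟩ : MulAction.stabilizer Γ z) ∈ (mult hX h z).ker := by
    rw [MonoidHom.mem_ker]
    exact Units.ext hm
  have hd1 : Tendsto (fun y => (E X d y - y) / (E X d y - y)) (𝓝[≠] (z : ℚ_[p])) (𝓝 1) := by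
    refine tendsto_const_nhds.congr' ?_
    filter_upwards [iso_isolated hX h hz] with y hy
    rw [div_self hy]
  let τ : (mult hX h z).ker →* Multiplicative ℚ_[p] :=
    { toFun := fun g => Multiplicative.ofAdd (s g)
      map_one' := by
        apply Multiplicative.toAdd.injective
        show s 1 = 0
        refine tendsto_nhds_unique (hs 1) (tendsto_const_nhds.congr' ?_)
        filter_upwards [hXn] with y hy
        have h1 : E X (1 : Γ) y = y := by
          have := E_coe (1 : Γ) ⟨y, hy⟩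
          rw [one_smul] at this
          exact this
        show (0 : ℚ_[p]) = (E X (1 : Γ) y - y) / (E X d y - y)
        rw [h1, sub_self, zero_div]
      map_mul' := by
        intro g g'
        apply Multiplicative.toAdd.injective
        show s (g * g') = s g + s g'
        have h1 : der X (((g' : MulAction.stabilizer Γ z) : Γ)) z = 1 := congrArg Units.val g'.2
        have h2 := (strict hX h (((g' : MulAction.stabilizer Γ z) : Γ)) z)
        rw [h1] at h2
        have h3 := limit_add hdk' hk.continuousAt hkz h2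
          (hEz _ (g' : MulAction.stabilizer Γ z).2) (hs g) (hs g')
        refine tendsto_nhds_unique (hs (g * g')) (h3.congr' ?_)
        filter_upwards [hXn] with y hy
        rw [← E_mul _ _ hy]
        rfl }
  obtain ⟨φ, hφ⟩ := exists_real τ ⟨⟨d, hdm⟩, hdker⟩ (by
    intro j hj h0
    have h1 : s ⟨⟨d, hdm⟩, hdker⟩ = 1 := tendsto_nhds_unique (hs _) hd1
    have h2 : j • s ⟨⟨d, hdm⟩, hdker⟩ = 0 := h0
    rw [h1, nsmul_eq_mul, mul_one, Nat.cast_eq_zero] at h2
    omega)
  have hcc : ∀ g : MulAction.stabilizer Γ z, g * ⟨d, hdm⟩ = ⟨d, hdm⟩ * g := fun g =>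
    Subtype.ext (hdc g)
  obtain ⟨φ', hφ'⟩ := transfer_hom (⟨d, hdm⟩ : MulAction.stabilizer Γ z) hcc
    (mult hX h z).ker φ 1 (by rw [pow_one]; exact hdker) (by simpa using hφ)
  exact transfer_hom d (fun g => hdc g) _ φ' 1 (by rw [pow_one]; exact hdm) (by simpa using hφ')

end Pool.Agent.W2helper25.PA
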