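import Pool.Agent.W2helper25.PA.Fix

/-!
# Real valued homomorphisms on the centralizers in groups of locally analytic homeomorphisms
-/

set_option autoImplicit false
set_option linter.unusedSectionVars false

namespace Pool.Agent.W2helper25.PA

open Filter Topology Set Metric
open Pool.Agent.W2helper25.LS
open Pool.Agent.W2helper35.TM (transfer_hom good_of_real cent_comm)
open Pool.Agent.H26R2.Bass (Good)

universe u v

variable {p : ℕ} [hp : Fact p.Prime]

section

variable {Γ : Type u} {X : Set ℚ_[p]} [Group Γ] [MulAction Γ X] [CompactSpace X]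

theorem hom_of_near (hX : IsOpen X) (h : LocAn Γ X) {d : Γ} (hdc : ∀ g : Γ, g * d = d * g)
    {r : ℝ} (hd : NearId d X r) {x : X} (hx : d • x ≠ x) :
    ∃ φ : Γ →* Multiplicative ℝ, φ d ≠ 1 := by
  by_cases hI : (Iso d X).Nonempty
  · obtain ⟨z, hz⟩ := hI
    by_cases hm : der X d z = 1
    · exact hom_of_tangent hX h hdc hz hm
    · exact hom_of_mult hX h hdc hd hz hm
  · have h1 : ∀ z : X, d • z = z → ∀ᶠ y in 𝓝 z, d • y = y := by
      intro z hz
      by_contra h0
      exact hI ⟨z, hz, h0⟩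
    -- the displacement is bounded away from zero outside the fixed points
    have hY : IsClosed {y : X | d • y ≠ y} := by
      rw [← isOpen_compl_iff]
      rw [isOpen_iff_mem_nhds]
      intro z hz
      have h2 : d • z = z := by
        by_contra h0
        exact hz h0
      filter_upwards [h1 z h2] with y hy h3
      exact h3 hy
    have hc : Continuous (fun y : X => ‖disp d y‖) := by
      unfold disp
      exact ((continuous_subtype_val.comp (cont hX h d)).sub continuous_subtype_val).norm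
    obtain ⟨y0, hy0, hmin⟩ := hY.isCompact.exists_isMinOn ⟨x, hx⟩ hc.continuousOn
    have hpos : 0 < ‖disp d y0‖ := by
      rw [norm_pos_iff]
      intro h0
      exact hy0 (Subtype.ext (sub_eq_zero.1 h0))
    exact hom_of_orbit hd hdc (fun g => cont hX h g) x hx hpos (fun y hy => hmin hy)

/-- **central elements of infinite order** -/
theorem hom_of_central (hX : IsOpen X) (h : LocAn Γ X)
    {c : Γ} (hcc : ∀ g : Γ, g * c = c * g) (hc : ∀ n : ℕ, 0 < n → ∃ x : X, c ^ n • x ≠ x) :
    ∃ φ : Γ →* Multiplicative ℝ, φ c ≠ 1 := by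
  rcases hom_or_bdd (locSim hX h) (perfect hX) c with hb | ⟨φ, hφ⟩
  · obtain ⟨K, hK, r, hd⟩ := exists_near hX h hb
    obtain ⟨x, hx⟩ := hc K hK
    obtain ⟨φ, hφ⟩ := hom_of_near hX h
      (fun g => ((show Commute g c from hcc g).pow_right K).eq) hd hx
    refine ⟨φ, fun h2 => hφ ?_⟩
    rw [map_pow, h2, one_pow]
  · have hmem : ∀ g : Γ, g ∈ Subgroup.centralizer ({c} : Set Γ) := fun g =>
      Subgroup.mem_centralizer_singleton_iff.2 (hcc g)
    refine ⟨φ.comp ((MonoidHom.id Γ).codRestrict _ hmem), ?_⟩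
    exact hφ

end

/-! ### elements detected by an action of a subgroup of finite index -/

/-- from a subgroup of finite index to the group -/
theorem hom_of_finiteIndex {H : Type u} [Group H] (c : H) (N : Subgroup H) [N.FiniteIndex] (m : ℕ)
    (hm : c ^ m ∈ N) (φ : Subgroup.centralizer ({(⟨c ^ m, hm⟩ : N)} : Set N) →* Multiplicative ℝ)
    (hφ : φ ⟨⟨c ^ m, hm⟩, Subgroup.mem_centralizer_singleton_iff.2 rfl⟩ ≠ 1) :
    ∃ φ : Subgroup.centralizer ({c} : Set H) →* Multiplicative ℝ,
      φ ⟨c, Subgroup.mem_centralizer_singleton_iff.2 rfl⟩ ≠ 1 := by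
  let f : N.subgroupOf (Subgroup.centralizer {c}) →* N :=
    { toFun := fun x => ⟨x.1.1, x.2⟩
      map_one' := rfl
      map_mul' := fun _ _ => rfl }
  have hf : ∀ x, f x ∈ Subgroup.centralizer ({(⟨c ^ m, hm⟩ : N)} : Set N) := by
    intro x
    rw [Subgroup.mem_centralizer_singleton_iff]
    apply Subtype.ext
    have h1 : (x.1.1 : H) * c = c * x.1.1 := Subgroup.mem_centralizer_singleton_iff.1 x.1.2
    exact ((show Commute (x.1.1 : H) c from h1).pow_right m).eq
  exact transfer_hom
    (⟨c, Subgroup.mem_centralizer_singleton_iff.2 rfl⟩ : Subgroup.centralizer ({c} : Set H))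
    (cent_comm c) (N.subgroupOf (Subgroup.centralizer {c})) (φ.comp (f.codRestrict _ hf)) m hm hφ

/-- a subgroup of finite index of `H` acts on a compact open subset of the `p`-adic numbers, for some
`p`, by locally analytic homeomorphisms such that no positive power of `c` which lies in this subgroup
acts trivially -/
def Detected (H : Type u) [Group H] (c : H) : Prop :=
  ∃ (N : Subgroup H) (_ : N.FiniteIndex) (p : ℕ) (_ : Fact p.Prime) (X : Set ℚ_[p])
    (_ : MulAction N X), IsOpen X ∧ IsCompact X ∧ LocAn N X ∧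
      ∀ (m : ℕ) (hm : c ^ m ∈ N), 0 < m → ∃ x : X, (⟨c ^ m, hm⟩ : N) • x ≠ x

theorem Detected.hom {H : Type u} [Group H] {c : H} (hc : Detected H c) :
    ∃ φ : Subgroup.centralizer ({c} : Set H) →* Multiplicative ℝ,
      φ ⟨c, Subgroup.mem_centralizer_singleton_iff.2 rfl⟩ ≠ 1 := by
  obtain ⟨N, hN, p, hp, X, hA, hX, hK, h, hx⟩ := hc
  obtain ⟨m, hm0, _, hm⟩ := Subgroup.exists_pow_mem_of_index_ne_zero
    (Subgroup.FiniteIndex.index_ne_zero (H := N)) c
  have : CompactSpace X := isCompact_iff_compactSpace.1 hK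
  have h' : LocAn (Subgroup.centralizer ({(⟨c ^ m, hm⟩ : N)} : Set N)) X := fun g x => h (g : N) x
  obtain ⟨φ, hφ⟩ := hom_of_central (c := ⟨⟨c ^ m, hm⟩, Subgroup.mem_centralizer_singleton_iff.2 rfl⟩)
    hX h' (fun g => Subtype.ext (Subgroup.mem_centralizer_singleton_iff.1 g.2)) (by
      intro n hn
      have h1 : c ^ (m * n) ∈ N := by
        rw [pow_mul]
        exact N.pow_mem hm n
      obtain ⟨x, hx⟩ := hx (m * n) h1 (Nat.mul_pos hm0 hn)
      refine ⟨x, ?_⟩
      have e : (⟨c ^ (m * n), h1⟩ : N) = (⟨c ^ m, hm⟩ : N) ^ n :=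
        Subtype.ext (pow_mul c m n)
      rw [e] at hx
      exact hx)
  exact hom_of_finiteIndex c N m hm φ hφ

/-- faithful actions -/
theorem detected_of_faithful {p : ℕ} [hp : Fact p.Prime] {Γ : Type u} {X : Set ℚ_[p]} [Group Γ]
    [MulAction Γ X] (hX : IsOpen X) (hK : IsCompact X) (h : LocAn Γ X)
    (hf : ∀ g : Γ, (∀ x : X, g • x = x) → g = 1) (H : Subgroup Γ) {c : H}
    (hc : ¬ IsOfFinOrder c) : Detected H c := by
  refine ⟨⊤, inferInstance, p, hp, X, inferInstance, hX, hK, fun g x => h ((g : H) : Γ) x, ?_⟩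
  intro m hm h0
  by_contra hcon
  push Not at hcon
  apply hc
  rw [isOfFinOrder_iff_pow_eq_one]
  refine ⟨m, h0, ?_⟩
  apply Subtype.ext
  exact hf _ hcon

/-- stretched elements -/
theorem hom_of_stretched {H : Type u} [Group H] {c : H} (hc : Stretched.{u, v} H c) :
    ∃ φ : Subgroup.centralizer ({c} : Set H) →* Multiplicative ℝ,
      φ ⟨c, Subgroup.mem_centralizer_singleton_iff.2 rfl⟩ ≠ 1 := by
  obtain ⟨N, hN, X, i1, i2, i3, i4, h, hp, m, hm, hb⟩ := hc
  rcases hom_or_bdd h hp (⟨c ^ m, hm⟩ : N) with h1 | ⟨φ, hφ⟩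
  · exact absurd h1 hb
  · exact hom_of_finiteIndex c N m hm φ hφ

end Pool.Agent.W2helper25.PA
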