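import Pool.Agent.W2helper25.PA.Base

/-!
# A power of a bounded element is close to the identity
-/

set_option autoImplicit false
set_option linter.unusedSectionVars false

namespace Pool.Agent.W2helper25.PA

open Filter Topology Set Metric
open Pool.Agent.W2helper25.LS

universe u

variable {p : ℕ} [hp : Fact p.Prime]

/-- a power of all units is close to one -/
lemma exists_exponent : ∃ J : ℕ, 0 < J ∧ ∀ a : ℚ_[p], ‖a‖ = 1 → ‖a ^ J - 1‖ ≤ κ p := by
  refine ⟨(p ^ 2).totient, Nat.totient_pos.2 (pow_pos hp.out.pos 2), ?_⟩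
  intro a ha
  set b : ℤ_[p] := ⟨a, ha.le⟩ with hb
  have hbu : IsUnit b := PadicInt.isUnit_iff.2 ha
  have h1 : (PadicInt.toZModPow 2 b) ^ (p ^ 2).totient = 1 := by
    obtain ⟨u, hu⟩ := hbu.map (PadicInt.toZModPow (p := p) 2)
    rw [← hu, ← Units.val_pow_eq_pow_val, ZMod.pow_totient, Units.val_one]
  have h2 : b ^ (p ^ 2).totient - 1 ∈ RingHom.ker (PadicInt.toZModPow (p := p) 2) := by
    rw [RingHom.mem_ker, map_sub, map_pow, h1, map_one, sub_self]
  rw [PadicInt.ker_toZModPow, ← PadicInt.norm_le_pow_iff_mem_span_pow] at h2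
  have h3 : ‖a ^ (p ^ 2).totient - 1‖ = ‖b ^ (p ^ 2).totient - 1‖ := by
    rw [PadicInt.norm_def]
    push_cast
    rfl
  rw [h3]
  refine h2.trans (le_of_eq ?_)
  unfold κ
  rw [zpow_neg]
  norm_cast

section

variable {Γ : Type u} {X : Set ℚ_[p]} [Group Γ] [MulAction Γ X]

/-- `d` preserves the balls of radius `r`, and it is close to the identity on them -/
def NearId (d : Γ) (X : Set ℚ_[p]) [MulAction Γ X] (r : ℝ) : Prop :=
  0 < r ∧ ∀ x : X, dist (d • x) x < r ∧ ∀ y : X, dist y x < r →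
    ‖((d • y : X) : ℚ_[p]) - (d • x : X) - ((y : ℚ_[p]) - x)‖ ≤ κ p * ‖(y : ℚ_[p]) - x‖

variable [hXc : CompactSpace X]

theorem exists_near (hX : IsOpen X) (h : LocAn Γ X) {c : Γ} (hb : Bdd (locSim hX h) c) :
    ∃ K : ℕ, 0 < K ∧ ∃ r : ℝ, NearId (c ^ K) X r := by
  have hpf : ∀ x : X, (𝓝[≠] x).NeBot := perfect hX
  obtain ⟨M, hM, hb'⟩ := id hb
  -- a uniform radius
  have h1 : ∃ δ : ℝ, 0 < δ ∧ ∀ x : X, ∃ a : ℚ_[p], Cl c x δ a := by
    choose R hR hs using fun x : X => exists_Cl hX h c x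
    obtain ⟨δ, hδ, hc⟩ := lebesgue_number_lemma_of_metric (s := (univ : Set X)) isCompact_univ
      (c := fun x : X => ball x (R x)) (fun x => isOpen_ball)
      (fun x _ => mem_iUnion.2 ⟨x, mem_ball_self (hR x)⟩)
    refine ⟨δ, hδ, fun x => ?_⟩
    obtain ⟨y, hy⟩ := hc x (mem_univ x)
    exact ⟨der X c y, (hs y).1, fun z w hz hw => (hs y).2 z w (hy hz) (hy hw)⟩
  obtain ⟨δ, hδ, hcl⟩ := h1
  have hr1 : 0 < δ / M := div_pos hδ hM
  have h2 : ∀ (n : ℕ) (x : X), ∃ a : ℚ_[p], Cl (c ^ n) x (δ / M) a := by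
    intro n
    induction n with
    | zero =>
      intro x
      refine ⟨1, one_ne_zero, fun y z _ _ => ?_⟩
      rw [pow_zero, one_smul, one_smul, one_mul, sub_self, norm_zero]
      exact mul_nonneg κ_pos.le (mul_nonneg (norm_nonneg _) (norm_nonneg _))
    | succ n ih =>
      intro x
      obtain ⟨a, ha⟩ := ih x
      obtain ⟨b, hb⟩ := hcl (c ^ n • x)
      refine ⟨b * a, ?_⟩
      rw [pow_succ']
      apply ha.mul hr1 hb
      have h3 : ‖a‖ = lam (locSim hX h) (c ^ n) x := ha.simOn.eq_lam (locSim hX h) hpf hr1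
      rw [h3]
      calc lam (locSim hX h) (c ^ n) x * (δ / M) ≤ M * (δ / M) :=
            mul_le_mul_of_nonneg_right (hb' n x).2 hr1.le
        _ = δ := by field_simp
  obtain ⟨N, hN, r, hr, hrle, hP⟩ := hb.exists_pres (locSim hX h) hpf hr1
  obtain ⟨J, hJ, hJa⟩ := exists_exponent (p := p)
  refine ⟨N * J, Nat.mul_pos hN hJ, r, hr, fun x => ?_⟩
  obtain ⟨a, ha⟩ := h2 N x
  have ha' := ha.mono hrle
  have han : ‖a‖ = 1 := by
    rw [ha'.simOn.eq_lam (locSim hX h) hpf hr, ← (hP x).2.eq_lam (locSim hX h) hpf hr]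
  have hx : dist x x < r := by rw [dist_self]; exact hr
  -- the powers of `c ^ N`
  have h3 : ∀ j : ℕ, Cl ((c ^ N) ^ j) x r (a ^ j) := by
    intro j
    induction j with
    | zero =>
      refine ⟨by rw [pow_zero]; exact one_ne_zero, fun y z _ _ => ?_⟩
      rw [pow_zero, pow_zero, one_smul, one_smul, one_mul, sub_self, norm_zero]
      exact mul_nonneg κ_pos.le (mul_nonneg (norm_nonneg _) (norm_nonneg _))
    | succ j ih =>
      have h4 : Cl (c ^ N) ((c ^ N) ^ j • x) r a := by
        refine ⟨ha'.1, fun y z hy hz => ?_⟩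
        have h5 := ((hP x).pow hr j).1
        exact ha'.2 y z (dist_lt_of hy h5) (dist_lt_of hz h5)
      rw [pow_succ', pow_succ']
      apply ih.mul hr h4
      rw [norm_pow, han, one_pow, one_mul]
  refine ⟨?_, fun y hy => ?_⟩
  · rw [pow_mul]
    exact ((hP x).pow hr J).1
  · rw [pow_mul]
    have h4 := (h3 J).2 y x hy hx
    have h5 := hJa a han
    have h6 : (((c ^ N) ^ J • y : X) : ℚ_[p]) - ((c ^ N) ^ J • x : X) - ((y : ℚ_[p]) - x) =
        ((((c ^ N) ^ J • y : X) : ℚ_[p]) - ((c ^ N) ^ J • x : X) - a ^ J * ((y : ℚ_[p]) - x)) +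
        (a ^ J - 1) * ((y : ℚ_[p]) - x) := by ring
    rw [h6]
    refine (IsUltrametricDist.norm_add_le_max _ _).trans (max_le ?_ ?_)
    · rwa [norm_pow, han, one_pow, one_mul] at h4
    · rw [norm_mul]
      exact mul_le_mul_of_nonneg_right h5 (norm_nonneg _)

end

/-! ### the powers of an element which is close to the identity -/

section

variable {Γ : Type u} {X : Set ℚ_[p]} [Group Γ] [MulAction Γ X]

lemma NearId.iso {d : Γ} {r : ℝ} (h : NearId d X r) {x y : X} (hxy : dist y x < r) :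
    dist (d • y) (d • x) = dist y x := by
  show dist ((d • y : X) : ℚ_[p]) (d • x : X) = dist (y : ℚ_[p]) x
  rw [dist_eq_norm, dist_eq_norm]
  by_cases h0 : (y : ℚ_[p]) = x
  · have h1 : y = x := Subtype.ext h0
    rw [h1, sub_self, sub_self]
  · apply norm_eq_of_lt
    refine ((h.2 x).2 y hxy).trans_lt ?_
    have h1 : 0 < ‖(y : ℚ_[p]) - x‖ := norm_pos_iff.2 (sub_ne_zero.2 h0)
    have := κ_lt_one (p := p)
    nlinarith

lemma NearId.pow {d : Γ} {r : ℝ} (h : NearId d X r) (n : ℕ) : NearId (d ^ n) X r := by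
  refine ⟨h.1, ?_⟩
  induction n with
  | zero =>
    intro x
    refine ⟨?_, fun y _ => ?_⟩
    · rw [pow_zero, one_smul, dist_self]
      exact h.1
    · rw [pow_zero, one_smul, one_smul, sub_self, norm_zero]
      exact mul_nonneg κ_pos.le (norm_nonneg _)
  | succ n ih =>
    intro x
    refine ⟨?_, fun y hy => ?_⟩
    · rw [pow_succ', mul_smul]
      exact dist_lt_of (h.2 (d ^ n • x)).1 (ih x).1
    · have hd : dist (d ^ n • y) (d ^ n • x) = dist y x :=
        NearId.iso (d := d ^ n) ⟨h.1, ih⟩ hy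
      have h1 := (h.2 (d ^ n • x)).2 (d ^ n • y) (by rw [hd]; exact hy)
      have h2 := (ih x).2 y hy
      have h3 : ‖((d ^ n • y : X) : ℚ_[p]) - (d ^ n • x : X)‖ = ‖(y : ℚ_[p]) - x‖ := by
        rw [← dist_eq_norm, ← dist_eq_norm]
        exact hd
      rw [h3] at h1
      have h4 : ((d ^ (n + 1) • y : X) : ℚ_[p]) - (d ^ (n + 1) • x : X) - ((y : ℚ_[p]) - x) =
          (((d • d ^ n • y : X) : ℚ_[p]) - (d • d ^ n • x : X) -
            (((d ^ n • y : X) : ℚ_[p]) - (d ^ n • x : X))) +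
          (((d ^ n • y : X) : ℚ_[p]) - (d ^ n • x : X) - ((y : ℚ_[p]) - x)) := by
        rw [pow_succ', mul_smul, mul_smul]
        ring
      rw [h4]
      exact (IsUltrametricDist.norm_add_le_max _ _).trans (max_le h1 h2)

/-- the displacement -/
noncomputable def disp (d : Γ) (x : X) : ℚ_[p] := ((d • x : X) : ℚ_[p]) - x

lemma NearId.disp_sub {d : Γ} {r : ℝ} (h : NearId d X r) {x y : X} (hxy : dist y x < r) :
    ‖disp d y - disp d x‖ ≤ κ p * ‖(y : ℚ_[p]) - x‖ := by
  have h1 := (h.2 x).2 y hxy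
  have h2 : disp d y - disp d x =
      ((d • y : X) : ℚ_[p]) - (d • x : X) - ((y : ℚ_[p]) - x) := by
    unfold disp
    ring
  rw [h2]
  exact h1

lemma NearId.norm_disp_lt {d : Γ} {r : ℝ} (h : NearId d X r) (x : X) : ‖disp d x‖ < r := by
  have := (h.2 x).1
  show ‖((d • x : X) : ℚ_[p]) - x‖ < r
  rw [← dist_eq_norm]
  exact this

/-- the displacement of the iterates is bounded by the displacement -/
lemma NearId.norm_disp_pow_le {d : Γ} {r : ℝ} (h : NearId d X r) (x : X) (n : ℕ) :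
    ‖disp (d ^ n) x‖ ≤ ‖disp d x‖ := by
  induction n with
  | zero =>
    unfold disp
    rw [pow_zero, one_smul, sub_self, norm_zero]
    exact norm_nonneg _
  | succ n ih =>
    have h1 : disp (d ^ (n + 1)) x = disp (d ^ n) (d • x) + disp d x := by
      unfold disp
      rw [pow_succ, mul_smul]
      ring
    have h2 : ‖disp (d ^ n) (d • x)‖ = ‖disp (d ^ n) x‖ := by
      have e1 : d ^ n • d • x = d • d ^ n • x := by
        rw [← mul_smul, ← mul_smul, ← pow_succ, ← pow_succ']
      have e2 := h.iso (x := x) (y := d ^ n • x) ((h.pow n).2 x).1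
      unfold disp
      rw [e1, ← dist_eq_norm, ← dist_eq_norm]
      exact e2
    rw [h1]
    refine (IsUltrametricDist.norm_add_le_max _ _).trans (max_le ?_ le_rfl)
    rw [h2]
    exact ih

/-- the sum of the displacements along the orbit -/
lemma disp_pow_sum (d : Γ) (x : X) (n : ℕ) :
    disp (d ^ n) x = ∑ i ∈ Finset.range n, disp d (d ^ i • x) := by
  induction n with
  | zero =>
    unfold disp
    rw [pow_zero, one_smul, sub_self, Finset.sum_range_zero]
  | succ n ih =>
    rw [Finset.sum_range_succ, ← ih]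
    unfold disp
    rw [pow_succ', mul_smul]
    ring

lemma NearId.disp_pow_sub {d : Γ} {r : ℝ} (h : NearId d X r) (x : X) (n : ℕ) :
    ‖disp (d ^ n) x - n * disp d x‖ ≤ κ p * ‖disp d x‖ := by
  rw [disp_pow_sum]
  have h1 : (n : ℚ_[p]) * disp d x = ∑ i ∈ Finset.range n, disp d x := by
    rw [Finset.sum_const, Finset.card_range, nsmul_eq_mul]
  rw [h1, ← Finset.sum_sub_distrib]
  apply IsUltrametricDist.norm_sum_le_of_forall_le_of_nonneg
    (mul_nonneg κ_pos.le (norm_nonneg _))
  intro i _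
  refine (h.disp_sub ((h.pow i).2 x).1).trans ?_
  exact mul_le_mul_of_nonneg_left (h.norm_disp_pow_le x i) κ_pos.le

/-- **the displacement of the powers** -/
theorem NearId.norm_disp_pow (n : ℕ) : ∀ {d : Γ} {r : ℝ} (_ : NearId d X r) (x : X),
    ‖disp (d ^ n) x‖ = ‖(n : ℚ_[p])‖ * ‖disp d x‖ := by
  induction n using Nat.strong_induction_on with
  | _ n ih =>
    intro d r h x
    -- the direct estimate
    have direct : ∀ (m : ℕ) {e : Γ} (_ : NearId e X r), (p : ℝ)⁻¹ ≤ ‖(m : ℚ_[p])‖ →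
        ‖disp (e ^ m) x‖ = ‖(m : ℚ_[p])‖ * ‖disp e x‖ := by
      intro m e he hm
      rw [← norm_mul]
      by_cases h0 : disp e x = 0
      · have h1 := he.norm_disp_pow_le x m
        rw [h0, norm_zero] at h1
        rw [h0, mul_zero, norm_zero]
        exact le_antisymm h1 (norm_nonneg _)
      · apply norm_eq_of_lt
        refine (he.disp_pow_sub x m).trans_lt ?_
        rw [norm_mul]
        have h1 : 0 < ‖disp e x‖ := norm_pos_iff.2 h0
        have h2 := κ_lt (p := p)
        nlinarith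
    rcases Nat.eq_zero_or_pos n with h0 | h0
    · subst h0
      unfold disp
      rw [pow_zero, one_smul, sub_self, norm_zero, Nat.cast_zero, norm_zero, zero_mul]
    · by_cases hd : p ∣ n
      · obtain ⟨m, hm⟩ := hd
        have hmn : m < n := by
          have h1 : 0 < m := Nat.pos_of_ne_zero (by rintro rfl; omega)
          rw [hm]
          have := hp.out.one_lt
          nlinarith
        have e1 := ih m hmn (h.pow p) x
        have e2 := direct p h (by rw [Padic.norm_p])
        rw [hm, pow_mul, e1, e2, Nat.cast_mul, norm_mul]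
        ring
      · apply direct n h
        have h1 : ‖(n : ℚ_[p])‖ = 1 := by
          rw [Padic.norm_natCast_eq_one_iff]
          exact (Nat.Prime.coprime_iff_not_dvd hp.out).2 hd
        rw [h1]
        have h2 : (1 : ℝ) < p := by exact_mod_cast hp.out.one_lt
        exact (inv_lt_one_of_one_lt₀ h2).le

end

end Pool.Agent.W2helper25.PA
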