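import Pool.Agent.W2helper25.PA.Near
import Pool.Agent.W2helper35.TM.Trans

/-!
# The closures of the orbits of an element which is close to the identity
-/

set_option autoImplicit false
set_option linter.unusedSectionVars false

namespace Pool.Agent.W2helper25.PA

open Filter Topology Set Metric
open Pool.Agent.W2helper25.LS
open Pool.Agent.W2helper35.TM (transfer_hom)

universe u v

/-! ### real valued homomorphisms on commutative groups -/

theorem exists_real_add {A : Type v} [AddCommGroup A] (a : A) (ha : ∀ n : ℕ, 0 < n → n • a ≠ 0) :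
    ∃ ψ : A →+ ℝ, ψ a ≠ 0 := by
  let i : ℤ →+ A := zmultiplesHom A a
  have hi : Function.Injective i := by
    rw [injective_iff_map_eq_zero]
    intro n hn
    have h1 : n • a = 0 := hn
    by_contra h0
    have h2 : n.natAbs • a = 0 := by
      rcases Int.natAbs_eq n with h3 | h3
      · rw [h3, natCast_zsmul] at h1
        exact h1
      · rw [h3, neg_smul, natCast_zsmul, neg_eq_zero] at h1
        exact h1
    exact ha _ (Int.natAbs_pos.2 h0) h2
  obtain ⟨ψ, hψ⟩ := (Module.Baer.of_divisible ℝ).extension_property_addMonoidHom i hi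
    (Int.castAddHom ℝ)
  refine ⟨ψ, ?_⟩
  have h1 : ψ (i 1) = 1 := by
    have := DFunLike.congr_fun hψ 1
    simpa using this
  have h2 : i 1 = a := by simp [i]
  rw [← h2, h1]
  exact one_ne_zero

/-- a homomorphism to a commutative group such that the image of the element has infinite order -/
theorem exists_real {G : Type u} [Group G] {A : Type v} [AddCommGroup A]
    (τ : G →* Multiplicative A) (g : G) (hg : ∀ n : ℕ, 0 < n → n • Multiplicative.toAdd (τ g) ≠ 0) :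
    ∃ φ : G →* Multiplicative ℝ, φ g ≠ 1 := by
  obtain ⟨ψ, hψ⟩ := exists_real_add _ hg
  refine ⟨(AddMonoidHom.toMultiplicative ψ).comp τ, ?_⟩
  intro h1
  exact hψ (Multiplicative.ofAdd.injective h1)

variable {p : ℕ} [hp : Fact p.Prime]
variable {Γ : Type u} {X : Set ℚ_[p]} [Group Γ] [MulAction Γ X]

/-- the powers of `d` -/
lemma dist_pow_pow {d : Γ} {r : ℝ} (hd : NearId d X r) (x : X) {i j : ℕ} (hij : i ≤ j) :
    ‖((d ^ j • x : X) : ℚ_[p]) - (d ^ i • x : X)‖ = ‖((j - i : ℕ) : ℚ_[p])‖ * ‖disp d x‖ := by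
  have h1 : ((d ^ j • x : X) : ℚ_[p]) - (d ^ i • x : X) = disp (d ^ (j - i)) (d ^ i • x) := by
    unfold disp
    rw [← mul_smul, ← pow_add, Nat.sub_add_cancel hij]
  rw [h1, hd.norm_disp_pow (j - i)]
  congr 1
  have e1 : d ^ i • d • x = d • d ^ i • x := by
    rw [← mul_smul, ← mul_smul, ← pow_succ, ← pow_succ']
  have e2 := (hd.pow i).iso (x := x) (y := d • x) (hd.2 x).1
  unfold disp
  rw [← e1, ← dist_eq_norm, ← dist_eq_norm]
  exact e2

lemma norm_pow_le_iff (n ℓ : ℕ) : ‖(n : ℚ_[p])‖ ≤ ((p : ℝ) ^ ℓ)⁻¹ ↔ p ^ ℓ ∣ n := by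
  have h1 := Padic.norm_int_le_pow_iff_dvd (p := p) (n : ℤ) ℓ
  rw [Int.cast_natCast, zpow_neg, zpow_natCast] at h1
  rw [h1]
  exact_mod_cast Iff.rfl

/-- every point of the ball of radius `‖disp d x‖` is close to the orbit of `x` -/
theorem NearId.dense {d : Γ} {r : ℝ} (hd : NearId d X r) {x y : X}
    (hy : ‖(y : ℚ_[p]) - x‖ ≤ ‖disp d x‖) (ℓ : ℕ) :
    ∃ n : ℕ, ‖(y : ℚ_[p]) - (d ^ n • x : X)‖ ≤ ((p : ℝ) ^ ℓ)⁻¹ * ‖disp d x‖ := by
  by_cases h0 : disp d x = 0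
  · refine ⟨0, ?_⟩
    rw [pow_zero, one_smul]
    rw [h0, norm_zero] at hy ⊢
    rw [mul_zero]
    exact hy
  have hpos : 0 < ‖disp d x‖ := norm_pos_iff.2 h0
  have hq : ∀ z : X, ‖(z : ℚ_[p]) - x‖ ≤ ‖disp d x‖ → ‖((z : ℚ_[p]) - x) / disp d x‖ ≤ 1 := by
    intro z hz
    rw [norm_div]
    exact (div_le_one hpos).2 hz
  have hn : ∀ n : ℕ, ‖((d ^ n • x : X) : ℚ_[p]) - x‖ ≤ ‖disp d x‖ := fun n =>
    hd.norm_disp_pow_le x n
  set q : ∀ z : X, ‖(z : ℚ_[p]) - x‖ ≤ ‖disp d x‖ → ℤ_[p] := fun z hz => ⟨_, hq z hz⟩ with hqdef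
  have hker : ∀ (z w : X) (hz : ‖(z : ℚ_[p]) - x‖ ≤ ‖disp d x‖)
      (hw : ‖(w : ℚ_[p]) - x‖ ≤ ‖disp d x‖),
      PadicInt.toZModPow ℓ (q z hz) = PadicInt.toZModPow ℓ (q w hw) →
      ‖(z : ℚ_[p]) - w‖ ≤ ((p : ℝ) ^ ℓ)⁻¹ * ‖disp d x‖ := by
    intro z w hz hw he
    have h1 : q z hz - q w hw ∈ RingHom.ker (PadicInt.toZModPow (p := p) ℓ) := by
      rw [RingHom.mem_ker, map_sub, he, sub_self]
    rw [PadicInt.ker_toZModPow, ← PadicInt.norm_le_pow_iff_mem_span_pow, zpow_neg,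
      zpow_natCast] at h1
    have h2 : ‖q z hz - q w hw‖ = ‖(z : ℚ_[p]) - w‖ / ‖disp d x‖ := by
      rw [PadicInt.norm_def, ← norm_div]
      push_cast
      rw [hqdef]
      simp only
      congr 1
      rw [← sub_div]
      congr 1
      ring
    rw [h2, div_le_iff₀ hpos] at h1
    exact h1
  set F : Fin (p ^ ℓ) → ZMod (p ^ ℓ) := fun i =>
    PadicInt.toZModPow ℓ (q (d ^ (i : ℕ) • x) (hn i)) with hF
  have hinj : Function.Injective F := by
    have key : ∀ i j : Fin (p ^ ℓ), (i : ℕ) < j → F j ≠ F i := by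
      intro i j hij he
      have h1 := hker _ _ (hn j) (hn i) he
      rw [dist_pow_pow hd x hij.le] at h1
      have h2 := le_of_mul_le_mul_right h1 hpos
      rw [norm_pow_le_iff] at h2
      have h3 := Nat.le_of_dvd (by omega) h2
      have := j.2
      omega
    intro i j he
    rcases lt_trichotomy (i : ℕ) j with h1 | h1 | h1
    · exact absurd he.symm (key i j h1)
    · exact Fin.ext h1
    · exact absurd he (key j i h1)
  have : NeZero (p ^ ℓ) := ⟨pow_ne_zero _ hp.out.ne_zero⟩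
  have hbij : Function.Bijective F := by
    rw [Fintype.bijective_iff_injective_and_card]
    exact ⟨hinj, by rw [Fintype.card_fin, ZMod.card]⟩
  obtain ⟨i, hi⟩ := hbij.2 (PadicInt.toZModPow ℓ (q y hy))
  exact ⟨i, hker _ _ hy (hn i) hi.symm⟩

/-- homeomorphisms which commute with `d` map the closures of its orbits to such closures -/
theorem NearId.move {d : Γ} {r : ℝ} (hd : NearId d X r) {g : Γ} (hg : g * d = d * g)
    (hc : Continuous (fun x : X => g • x)) {x y : X} (hy : ‖(y : ℚ_[p]) - x‖ ≤ ‖disp d x‖) :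
    ‖((g • y : X) : ℚ_[p]) - (g • x : X)‖ ≤ ‖disp d (g • x)‖ := by
  choose n hn using hd.dense hy
  have h1 : Tendsto (fun ℓ => ‖(y : ℚ_[p]) - (d ^ n ℓ • x : X)‖) atTop (𝓝 0) := by
    refine squeeze_zero (fun _ => norm_nonneg _) hn ?_
    have h2 : Tendsto (fun ℓ : ℕ => ((p : ℝ) ^ ℓ)⁻¹) atTop (𝓝 0) := by
      apply tendsto_inv_atTop_zero.comp
      apply tendsto_pow_atTop_atTop_of_one_lt
      exact_mod_cast hp.out.one_lt
    simpa using h2.mul_const ‖disp d x‖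
  have h2 : Tendsto (fun ℓ => (d ^ n ℓ • x : X)) atTop (𝓝 y) := by
    rw [tendsto_iff_dist_tendsto_zero]
    refine h1.congr ?_
    intro ℓ
    rw [← dist_eq_norm, dist_comm]
    rfl
  have h3 : Tendsto (fun ℓ => ‖(((g • (d ^ n ℓ • x : X) : X)) : ℚ_[p]) - (g • x : X)‖) atTop
      (𝓝 ‖((g • y : X) : ℚ_[p]) - (g • x : X)‖) := by
    apply Tendsto.norm
    apply Tendsto.sub_const
    exact (continuous_subtype_val.tendsto _).comp ((hc.tendsto y).comp h2)
  refine le_of_tendsto h3 (Eventually.of_forall fun ℓ => ?_)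
  have h4 : g • d ^ n ℓ • x = d ^ n ℓ • g • x := by
    rw [← mul_smul, ← mul_smul, ((show Commute g d from hg).pow_right (n ℓ)).eq]
  rw [h4]
  exact hd.norm_disp_pow_le (g • x) (n ℓ)

lemma NearId.norm_disp_eq {d : Γ} {r : ℝ} (hd : NearId d X r) {x y : X}
    (hy : ‖(y : ℚ_[p]) - x‖ ≤ ‖disp d x‖) : ‖disp d y‖ = ‖disp d x‖ := by
  by_cases h0 : disp d x = 0
  · have h1 : (y : ℚ_[p]) = x := by
      rw [h0, norm_zero] at hy
      exact sub_eq_zero.1 (norm_eq_zero.1 (le_antisymm hy (norm_nonneg _)))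
    rw [Subtype.ext h1]
  · have hpos : 0 < ‖disp d x‖ := norm_pos_iff.2 h0
    apply norm_eq_of_lt
    have h1 : dist y x < r := by
      show dist (y : ℚ_[p]) x < r
      rw [dist_eq_norm]
      exact hy.trans_lt (hd.norm_disp_lt x)
    refine (hd.disp_sub h1).trans_lt ?_
    have := κ_lt_one (p := p)
    have := κ_pos (p := p)
    nlinarith

/-- the same for the powers of `d` -/
theorem NearId.move_pow {d : Γ} {r : ℝ} (hd : NearId d X r) {g : Γ} (hg : g * d = d * g)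
    (hc : Continuous (fun x : X => g • x)) {x y : X} (m : ℕ)
    (hy : ‖(y : ℚ_[p]) - x‖ ≤ ‖(m : ℚ_[p])‖ * ‖disp d x‖) :
    ‖((g • y : X) : ℚ_[p]) - (g • x : X)‖ ≤ ‖(m : ℚ_[p])‖ * ‖disp d (g • x)‖ := by
  rw [← hd.norm_disp_pow m] at hy ⊢
  exact (hd.pow m).move ((show Commute g d from hg).pow_right m).eq hc hy

section

variable [hXc : CompactSpace X]

/-- the stabilizer of the closure of the orbit of `x` -/
def Stab {d : Γ} {r : ℝ} (hd : NearId d X r) (hdc : ∀ g : Γ, g * d = d * g)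
    (hc : ∀ g : Γ, Continuous (fun x : X => g • x)) (x : X) : Subgroup Γ where
  carrier := {g | ‖((g • x : X) : ℚ_[p]) - x‖ ≤ ‖disp d x‖}
  one_mem' := by
    show ‖(((1 : Γ) • x : X) : ℚ_[p]) - x‖ ≤ ‖disp d x‖
    rw [one_smul, sub_self, norm_zero]
    exact norm_nonneg _
  mul_mem' := by
    intro g k hg hk
    have h1 := hd.move (hdc g) (hc g) hk
    rw [hd.norm_disp_eq hg] at h1
    show ‖(((g * k) • x : X) : ℚ_[p]) - x‖ ≤ ‖disp d x‖
    have h2 : (((g * k) • x : X) : ℚ_[p]) - x =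
        (((g • k • x : X) : ℚ_[p]) - (g • x : X)) + (((g • x : X) : ℚ_[p]) - x) := by
      rw [mul_smul]
      ring
    rw [h2]
    exact (IsUltrametricDist.norm_add_le_max _ _).trans (max_le h1 hg)
  inv_mem' := by
    intro g hg
    have h1 : ‖(x : ℚ_[p]) - (g • x : X)‖ ≤ ‖disp d (g • x)‖ := by
      rw [hd.norm_disp_eq hg, norm_sub_rev]
      exact hg
    have h2 := hd.move (hdc g⁻¹) (hc g⁻¹) h1
    rw [inv_smul_smul] at h2
    exact h2

lemma mem_Stab {d : Γ} {r : ℝ} (hd : NearId d X r) (hdc : ∀ g : Γ, g * d = d * g)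
    (hc : ∀ g : Γ, Continuous (fun x : X => g • x)) (x : X) (g : Γ) :
    g ∈ Stab hd hdc hc x ↔ ‖((g • x : X) : ℚ_[p]) - x‖ ≤ ‖disp d x‖ := Iff.rfl

lemma stab_finiteIndex {d : Γ} {r : ℝ} (hd : NearId d X r) (hdc : ∀ g : Γ, g * d = d * g)
    (hc : ∀ g : Γ, Continuous (fun x : X => g • x)) (x : X) (hx : d • x ≠ x) {δ : ℝ} (hδ : 0 < δ)
    (hmin : ∀ y : X, d • y ≠ y → δ ≤ ‖disp d y‖) : (Stab hd hdc hc x).FiniteIndex := by
  obtain ⟨t, -, ht, htc⟩ := finite_cover_balls_of_compact (isCompact_univ (X := X)) hδ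
  have h1 : ∀ g : Γ, ∃ z : t, dist (g • x) (z : X) < δ := by
    intro g
    obtain ⟨z, hz⟩ := mem_iUnion.1 (htc (mem_univ (g • x)))
    obtain ⟨hz1, hz2⟩ := mem_iUnion.1 hz
    exact ⟨⟨z, hz1⟩, hz2⟩
  choose f hf using h1
  have := ht.to_subtype
  have h2 : Function.Injective (fun c : Γ ⧸ Stab hd hdc hc x => f c.out) := by
    intro a b hab
    have hab' : f a.out = f b.out := hab
    have e1 := hf a.out
    have e2 := hf b.out
    rw [hab'] at e1
    have h3 : dist (a.out • x) (b.out • x) < δ := dist_lt_of e1 (by rw [dist_comm]; exact e2)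
    have h4 : ‖((a.out • x : X) : ℚ_[p]) - (b.out • x : X)‖ ≤ ‖disp d (b.out • x)‖ := by
      rw [← dist_eq_norm]
      refine (le_of_lt h3).trans (hmin _ ?_)
      rw [← mul_smul, ← hdc, mul_smul]
      exact fun h => hx (MulAction.injective b.out h)
    have h5 := hd.move (hdc b.out⁻¹) (hc b.out⁻¹) h4
    rw [inv_smul_smul, ← mul_smul] at h5
    rw [← QuotientGroup.out_eq' a, ← QuotientGroup.out_eq' b]
    exact (QuotientGroup.eq.2 h5).symm
  have : Finite (Γ ⧸ Stab hd hdc hc x) := Finite.of_injective _ h2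
  exact Subgroup.finiteIndex_of_finite_quotient

/-- `g x` is close to `d ^ n x` -/
def Tr (d : Γ) (x : X) (ℓ : ℕ) (g : Γ) (n : ℕ) : Prop :=
  ‖((g • x : X) : ℚ_[p]) - (d ^ n • x : X)‖ ≤ ((p : ℝ) ^ ℓ)⁻¹ * ‖disp d x‖

lemma Tr.unique {d : Γ} {r : ℝ} (hd : NearId d X r) {x : X} (hx : d • x ≠ x) {ℓ : ℕ} {g : Γ}
    {n m : ℕ} (h1 : Tr d x ℓ g n) (h2 : Tr d x ℓ g m) :
    (n : ZMod (p ^ ℓ)) = (m : ZMod (p ^ ℓ)) := by
  wlog hnm : n ≤ m generalizing n m
  · exact (this h2 h1 (by omega)).symm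
  have hpos : 0 < ‖disp d x‖ := by
    rw [norm_pos_iff]
    intro h0
    exact hx (Subtype.ext (sub_eq_zero.1 h0))
  have h3 : ‖((d ^ m • x : X) : ℚ_[p]) - (d ^ n • x : X)‖ ≤ ((p : ℝ) ^ ℓ)⁻¹ * ‖disp d x‖ := by
    have e : ((d ^ m • x : X) : ℚ_[p]) - (d ^ n • x : X) =
        -(((g • x : X) : ℚ_[p]) - (d ^ m • x : X)) +
        (((g • x : X) : ℚ_[p]) - (d ^ n • x : X)) := by ring
    rw [e]
    refine (IsUltrametricDist.norm_add_le_max _ _).trans (max_le ?_ h1)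
    rw [norm_neg]
    exact h2
  rw [dist_pow_pow hd x hnm] at h3
  have h4 := (norm_pow_le_iff _ _).1 (le_of_mul_le_mul_right h3 hpos)
  rw [ZMod.natCast_eq_natCast_iff]
  exact (Nat.modEq_iff_dvd' hnm).2 h4

lemma Tr.mul {d : Γ} {r : ℝ} (hd : NearId d X r) (hdc : ∀ g : Γ, g * d = d * g)
    (hc : ∀ g : Γ, Continuous (fun x : X => g • x)) {x : X} {ℓ : ℕ} {g k : Γ}
    (hg : g ∈ Stab hd hdc hc x)
    {n m : ℕ} (h1 : Tr d x ℓ g n) (h2 : Tr d x ℓ k m) : Tr d x ℓ (g * k) (n + m) := by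
  have hpl : ((p : ℝ) ^ ℓ)⁻¹ = ‖((p ^ ℓ : ℕ) : ℚ_[p])‖ := by
    rw [Nat.cast_pow, norm_pow, Padic.norm_p, inv_pow]
  have hm : ‖((d ^ m • x : X) : ℚ_[p]) - x‖ ≤ ‖disp d x‖ := hd.norm_disp_pow_le x m
  have h3 : ‖((k • x : X) : ℚ_[p]) - (d ^ m • x : X)‖ ≤
      ‖((p ^ ℓ : ℕ) : ℚ_[p])‖ * ‖disp d (d ^ m • x)‖ := by
    rw [hd.norm_disp_eq hm, ← hpl]
    exact h2
  have h4 := hd.move_pow (hdc g) (hc g) (p ^ ℓ) h3
  have h5 : g • d ^ m • x = d ^ m • g • x := by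
    rw [← mul_smul, ← mul_smul, ((show Commute g d from hdc g).pow_right m).eq]
  have h6 : ‖disp d (g • d ^ m • x)‖ = ‖disp d x‖ := by
    rw [h5]
    have h7 : ‖((d ^ m • g • x : X) : ℚ_[p]) - (g • x : X)‖ ≤ ‖disp d (g • x)‖ :=
      hd.norm_disp_pow_le (g • x) m
    rw [hd.norm_disp_eq h7]
    exact hd.norm_disp_eq hg
  rw [h6, ← hpl, h5] at h4
  have h8 : ‖((d ^ m • g • x : X) : ℚ_[p]) - (d ^ m • d ^ n • x : X)‖ ≤
      ((p : ℝ) ^ ℓ)⁻¹ * ‖disp d x‖ := by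
    have h9 : dist (g • x) (d ^ n • x) < r := by
      show dist ((g • x : X) : ℚ_[p]) (d ^ n • x : X) < r
      rw [dist_eq_norm]
      refine lt_of_le_of_lt h1 (lt_of_le_of_lt ?_ (hd.norm_disp_lt x))
      have : ((p : ℝ) ^ ℓ)⁻¹ ≤ 1 := by
        rw [hpl]
        exact_mod_cast Padic.norm_int_le_one (p := p) ((p ^ ℓ : ℕ) : ℤ)
      have := norm_nonneg (disp d x)
      nlinarith
    have h10 : dist (d ^ m • g • x) (d ^ m • d ^ n • x) = dist (g • x) (d ^ n • x) :=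
      (hd.pow m).iso h9
    have h11 : dist ((d ^ m • g • x : X) : ℚ_[p]) (d ^ m • d ^ n • x : X) =
      dist ((g • x : X) : ℚ_[p]) (d ^ n • x : X) := h10
    rw [← dist_eq_norm, h11, dist_eq_norm]
    exact h1
  show ‖(((g * k) • x : X) : ℚ_[p]) - (d ^ (n + m) • x : X)‖ ≤ _
  have h12 : (((g * k) • x : X) : ℚ_[p]) - (d ^ (n + m) • x : X) =
      (((g • k • x : X) : ℚ_[p]) - (d ^ m • g • x : X)) +
      (((d ^ m • g • x : X) : ℚ_[p]) - (d ^ m • d ^ n • x : X)) := by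
    rw [mul_smul, add_comm n m, pow_add, mul_smul (d ^ m)]
    ring
  rw [h12]
  exact (IsUltrametricDist.norm_add_le_max _ _).trans (max_le h4 h8)

lemma exists_Tr {d : Γ} {r : ℝ} (hd : NearId d X r) (hdc : ∀ g : Γ, g * d = d * g)
    (hc : ∀ g : Γ, Continuous (fun x : X => g • x)) {x : X} {g : Γ}
    (hg : g ∈ Stab hd hdc hc x) (ℓ : ℕ) : ∃ n : ℕ, Tr d x ℓ g n :=
  hd.dense hg ℓ

theorem hom_of_orbit {d : Γ} {r : ℝ} (hd : NearId d X r) (hdc : ∀ g : Γ, g * d = d * g)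
    (hc : ∀ g : Γ, Continuous (fun x : X => g • x)) (x : X) (hx : d • x ≠ x) {δ : ℝ} (hδ : 0 < δ)
    (hmin : ∀ y : X, d • y ≠ y → δ ≤ ‖disp d y‖) : ∃ φ : Γ →* Multiplicative ℝ, φ d ≠ 1 := by
  haveI := stab_finiteIndex hd hdc hc x hx hδ hmin
  choose N hN using fun (g : Stab hd hdc hc x) (ℓ : ℕ) => exists_Tr hd hdc hc g.2 ℓ
  let τ : Stab hd hdc hc x →* Multiplicative (∀ ℓ : ℕ, ZMod (p ^ ℓ)) :=
    { toFun := fun g => Multiplicative.ofAdd (fun ℓ => ((N g ℓ : ℕ) : ZMod (p ^ ℓ)))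
      map_one' := by
        apply Multiplicative.toAdd.injective
        funext ℓ
        show ((N 1 ℓ : ℕ) : ZMod (p ^ ℓ)) = 0
        have h1 : Tr d x ℓ (1 : Γ) 0 := by
          unfold Tr
          rw [pow_zero, sub_self, norm_zero]
          positivity
        rw [Tr.unique hd hx (hN 1 ℓ) h1, Nat.cast_zero]
      map_mul' := by
        intro g k
        apply Multiplicative.toAdd.injective
        funext ℓ
        show ((N (g * k) ℓ : ℕ) : ZMod (p ^ ℓ)) = (N g ℓ : ℕ) + (N k ℓ : ℕ)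
        rw [Tr.unique hd hx (hN (g * k) ℓ) (Tr.mul hd hdc hc g.2 (hN g ℓ) (hN k ℓ)),
          Nat.cast_add] }
  have hdm : d ∈ Stab hd hdc hc x := by
    rw [mem_Stab]
    rfl
  obtain ⟨φ, hφ⟩ := exists_real τ ⟨d, hdm⟩ (by
    intro n hn h0
    have h1 : ∀ ℓ : ℕ, (n : ZMod (p ^ ℓ)) = 0 := by
      intro ℓ
      have h2 : n • ((N ⟨d, hdm⟩ ℓ : ℕ) : ZMod (p ^ ℓ)) = 0 := congrFun h0 ℓ
      have h3 : Tr d x ℓ (d : Γ) 1 := by
        unfold Tr
        rw [pow_one, sub_self, norm_zero]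
        positivity
      rw [Tr.unique hd hx (hN ⟨d, hdm⟩ ℓ) h3, Nat.cast_one, nsmul_eq_mul, mul_one] at h2
      exact h2
    have h4 := h1 n
    rw [ZMod.natCast_eq_zero_iff] at h4
    have h5 := Nat.le_of_dvd hn h4
    have h6 := Nat.lt_pow_self (n := n) hp.out.one_lt
    omega)
  exact transfer_hom d (fun g => hdc g) (Stab hd hdc hc x) φ 1 (by rw [pow_one]; exact hdm)
    (by simpa using hφ)

end

end Pool.Agent.W2helper25.PA
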